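import Mathlib

/-!
# Pinwheel scheduling with durations: the supremum `α*` is attained
-/

namespace Pool.Agent.Results.MP_020ed8_lc.Attained

open Finset

/-- A DAPS instance with `n` jobs (`n ≥ 1`): frequencies `f` in increasing order and durations
`p`, all positive integers. -/
structure DAPS (n : ℕ) where
  f : Fin n → ℕ
  p : Fin n → ℕ
  n_pos : 0 < n
  f_pos : ∀ i, 0 < f i
  p_pos : ∀ i, 0 < p i
  mono : Monotone f

open Classical in
/-- `c_i(V,S)`: the supremum over consecutive elements `a < b` of `S⁻¹(i)` of the total duration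
of the jobs processed at steps `a+1, …, b`, and `∞` if `J_i` is processed only finitely often. -/
noncomputable def cost {n : ℕ} (V : DAPS n) (S : ℕ → Fin n) (i : Fin n) : ℕ∞ :=
  if {t | S t = i}.Infinite then
    ⨆ (a : ℕ) (b : ℕ) (_ : a < b ∧ S a = i ∧ S b = i ∧ ∀ t, a < t → t < b → S t ≠ i),
      ((∑ t ∈ Ioc a b, V.p (S t) : ℕ) : ℕ∞)
  else ⊤

/-- The instance is feasible: some schedule `S` has `c_i(V,S) ≤ f_i` for all `i`. -/
def Feasible {n : ℕ} (V : DAPS n) : Prop :=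
  ∃ S : ℕ → Fin n, ∀ i, cost V S i ≤ (V.f i : ℕ∞)

/-- The density. -/
noncomputable def density {n : ℕ} (V : DAPS n) : ℝ := ∑ i, (V.p i : ℝ) / (V.f i : ℝ)

/-- The localized measure: the maximum over `i < j` of
`(∑ k ≤ i, ⌊f_i/f_k⌋ p_k + p_j) / f_i`, and `0` if `n = 1`. -/
noncomputable def locMeasure {n : ℕ} (V : DAPS n) : ℝ :=
  ⨆ q : {q : Fin n × Fin n // q.1 < q.2},
    ((∑ k ∈ Finset.univ.filter (· ≤ q.1.1), (V.f q.1.1 / V.f k) * V.p k : ℕ) + V.p q.1.2 : ℝ) /
      (V.f q.1.1 : ℝ)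

/-- `L(V) = max(ρ(V), μ(V))`. -/
noncomputable def L {n : ℕ} (V : DAPS n) : ℝ := max (density V) (locMeasure V)

/-- The set of thresholds `α` such that every instance with `L(V) ≤ α` is feasible. -/
def thresholds : Set ℝ := {α | ∀ (n : ℕ) (V : DAPS n), L V ≤ α → Feasible V}

/-- `α*`. -/
noncomputable def alphaStar : ℝ := sSup thresholds

/-! ### Doubling an instance -/

/-- the instance `(2 f_i + 1, 2 p_i)` -/
def dbl {n : ℕ} (V : DAPS n) : DAPS n where
  f := fun i => 2 * V.f i + 1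
  p := fun i => 2 * V.p i
  n_pos := V.n_pos
  f_pos := fun i => Nat.succ_pos _
  p_pos := fun i => by have := V.p_pos i; omega
  mono := fun i j hij => by have := V.mono hij; simp only; omega

theorem gap_iff {n : ℕ} (V : DAPS n) (S : ℕ → Fin n) (i : Fin n) (F : ℕ) :
    cost V S i ≤ (F : ℕ∞) ↔ {t | S t = i}.Infinite ∧ ∀ a b, a < b → S a = i → S b = i →
      (∀ t, a < t → t < b → S t ≠ i) → ∑ t ∈ Ioc a b, V.p (S t) ≤ F := by
  unfold cost
  split_ifs with hinf
  · constructor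
    · intro h
      refine ⟨hinf, fun a b hab ha hb hab' => ?_⟩
      have h1 : ((∑ t ∈ Ioc a b, V.p (S t) : ℕ) : ℕ∞) ≤
          ⨆ (a : ℕ) (b : ℕ) (_ : a < b ∧ S a = i ∧ S b = i ∧ ∀ t, a < t → t < b → S t ≠ i),
            ((∑ t ∈ Ioc a b, V.p (S t) : ℕ) : ℕ∞) :=
        le_iSup_of_le a (le_iSup_of_le b (le_iSup_of_le ⟨hab, ha, hb, hab'⟩ le_rfl))
      exact_mod_cast h1.trans h
    · rintro ⟨-, h⟩
      refine iSup_le fun a => iSup_le fun b => iSup_le fun hab => ?_
      exact_mod_cast h a b hab.1 hab.2.1 hab.2.2.1 hab.2.2.2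
  · constructor
    · intro h
      exact absurd h (by simp)
    · rintro ⟨h, -⟩
      exact absurd h hinf

theorem feasible_of_dbl {n : ℕ} (V : DAPS n) (h : Feasible (dbl V)) : Feasible V := by
  obtain ⟨S, hS⟩ := h
  refine ⟨S, fun i => ?_⟩
  have h1 := (gap_iff (dbl V) S i _).mp (hS i)
  refine (gap_iff V S i _).mpr ⟨h1.1, fun a b hab ha hb hab' => ?_⟩
  have h2 := h1.2 a b hab ha hb hab'
  have h3 : ∑ t ∈ Ioc a b, (dbl V).p (S t) = 2 * ∑ t ∈ Ioc a b, V.p (S t) := by
    rw [Finset.mul_sum]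
    rfl
  have h4 : (dbl V).f i = 2 * V.f i + 1 := rfl
  omega

theorem density_pos {n : ℕ} (V : DAPS n) : 0 < density V := by
  unfold density
  have : Nonempty (Fin n) := ⟨⟨0, V.n_pos⟩⟩
  refine Finset.sum_pos (fun i _ => ?_) Finset.univ_nonempty
  have h1 : (0 : ℝ) < V.p i := by exact_mod_cast V.p_pos i
  have h2 : (0 : ℝ) < V.f i := by exact_mod_cast V.f_pos i
  positivity

theorem density_dbl {n : ℕ} (V : DAPS n) : density (dbl V) < density V := by
  unfold density
  have : Nonempty (Fin n) := ⟨⟨0, V.n_pos⟩⟩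
  refine Finset.sum_lt_sum_of_nonempty Finset.univ_nonempty (fun i _ => ?_)
  have h1 : (0 : ℝ) < V.p i := by exact_mod_cast V.p_pos i
  have h2 : (0 : ℝ) < V.f i := by exact_mod_cast V.f_pos i
  have h3 : (((dbl V).p i : ℕ) : ℝ) = 2 * V.p i := by
    show (((2 * V.p i : ℕ)) : ℝ) = _
    push_cast; ring
  have h4 : (((dbl V).f i : ℕ) : ℝ) = 2 * V.f i + 1 := by
    show (((2 * V.f i + 1 : ℕ)) : ℝ) = _
    push_cast; ring
  rw [h3, h4, div_lt_div_iff₀ (by positivity) h2]
  nlinarith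

theorem floor_dbl {a b : ℕ} (hb : 0 < b) (_hab : b ≤ a) : (2 * a + 1) / (2 * b + 1) ≤ a / b := by
  rw [Nat.le_div_iff_mul_le hb]
  have h1 := Nat.div_mul_le_self (2 * a + 1) (2 * b + 1)
  set q := (2 * a + 1) / (2 * b + 1)
  by_contra h
  push Not at h
  nlinarith

theorem term_dbl {n : ℕ} (V : DAPS n) (i j : Fin n) (_hij : i < j) :
    ((∑ k ∈ Finset.univ.filter (· ≤ i), ((dbl V).f i / (dbl V).f k) * (dbl V).p k : ℕ) +
      (dbl V).p j : ℝ) / ((dbl V).f i : ℝ) <
    ((∑ k ∈ Finset.univ.filter (· ≤ i), (V.f i / V.f k) * V.p k : ℕ) + V.p j : ℝ) /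
      (V.f i : ℝ) := by
  have h1 : ∑ k ∈ Finset.univ.filter (· ≤ i), ((dbl V).f i / (dbl V).f k) * (dbl V).p k ≤
      2 * ∑ k ∈ Finset.univ.filter (· ≤ i), (V.f i / V.f k) * V.p k := by
    rw [Finset.mul_sum]
    refine Finset.sum_le_sum fun k hk => ?_
    have hk' : k ≤ i := (Finset.mem_filter.mp hk).2
    have h2 : (dbl V).f i / (dbl V).f k ≤ V.f i / V.f k := floor_dbl (V.f_pos k) (V.mono hk')
    calc ((dbl V).f i / (dbl V).f k) * (dbl V).p k ≤ (V.f i / V.f k) * (dbl V).p k :=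
          Nat.mul_le_mul_right _ h2
      _ = 2 * ((V.f i / V.f k) * V.p k) := by
          show (V.f i / V.f k) * (2 * V.p k) = _
          ring
  have h1' : ((∑ k ∈ Finset.univ.filter (· ≤ i),
      ((dbl V).f i / (dbl V).f k) * (dbl V).p k : ℕ) : ℝ) ≤
      2 * ((∑ k ∈ Finset.univ.filter (· ≤ i), (V.f i / V.f k) * V.p k : ℕ) : ℝ) := by
    exact_mod_cast h1
  have h3 : (((dbl V).p j : ℕ) : ℝ) = 2 * V.p j := by
    show (((2 * V.p j : ℕ)) : ℝ) = _
    push_cast; ring
  have h4 : (((dbl V).f i : ℕ) : ℝ) = 2 * V.f i + 1 := by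
    show (((2 * V.f i + 1 : ℕ)) : ℝ) = _
    push_cast; ring
  have hp : (0 : ℝ) < V.p j := by exact_mod_cast V.p_pos j
  have hf : (0 : ℝ) < V.f i := by exact_mod_cast V.f_pos i
  rw [h3, h4]
  set A : ℝ := ((∑ k ∈ Finset.univ.filter (· ≤ i), (V.f i / V.f k) * V.p k : ℕ) : ℝ) with hA
  have hA0 : 0 ≤ A := by rw [hA]; exact Nat.cast_nonneg _
  rw [div_lt_div_iff₀ (by positivity) hf]
  nlinarith

theorem locMeasure_dbl {n : ℕ} (V : DAPS n) :
    locMeasure (dbl V) ≤ 0 ∧ locMeasure V = 0 ∨ locMeasure (dbl V) < locMeasure V := by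
  unfold locMeasure
  rcases isEmpty_or_nonempty {q : Fin n × Fin n // q.1 < q.2} with he | hne
  · left
    rw [Real.iSup_of_isEmpty, Real.iSup_of_isEmpty]
    exact ⟨le_rfl, rfl⟩
  · right
    obtain ⟨q, hq⟩ := exists_eq_ciSup_of_finite
      (f := fun q : {q : Fin n × Fin n // q.1 < q.2} =>
        ((∑ k ∈ Finset.univ.filter (· ≤ q.1.1),
          ((dbl V).f q.1.1 / (dbl V).f k) * (dbl V).p k : ℕ) + (dbl V).p q.1.2 : ℝ) /
            ((dbl V).f q.1.1 : ℝ))
    rw [← hq]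
    exact (term_dbl V q.1.1 q.1.2 q.2).trans_le
      (le_ciSup (f := fun q : {q : Fin n × Fin n // q.1 < q.2} =>
        ((∑ k ∈ Finset.univ.filter (· ≤ q.1.1), (V.f q.1.1 / V.f k) * V.p k : ℕ) +
          V.p q.1.2 : ℝ) / (V.f q.1.1 : ℝ)) (Set.finite_range _).bddAbove q)

theorem L_dbl {n : ℕ} (V : DAPS n) : L (dbl V) < L V := by
  unfold L
  have h1 := density_dbl V
  have h2 := density_pos V
  rcases locMeasure_dbl V with ⟨h3, h4⟩ | h3
  · rw [h4]
    exact max_lt (h1.trans_le (le_max_left _ _)) (h3.trans_lt (h2.trans_le (le_max_left _ _)))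
  · exact max_lt (h1.trans_le (le_max_left _ _)) (h3.trans_le (le_max_right _ _))

/-- one job with `f = 1`, `p = 2` -/
def one : DAPS 1 where
  f := fun _ => 1
  p := fun _ => 2
  n_pos := Nat.one_pos
  f_pos := fun _ => Nat.one_pos
  p_pos := fun _ => Nat.two_pos
  mono := fun _ _ _ => le_rfl

theorem one_infeasible : ¬ Feasible one := by
  rintro ⟨S, hS⟩
  have h := ((gap_iff one S 0 _).mp (hS 0)).2 0 1 Nat.one_pos (Subsingleton.elim _ _)
    (Subsingleton.elim _ _) (fun t h1 h2 => by omega)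
  have h2 : ∑ t ∈ Ioc 0 1, one.p (S t) = 2 := by
    rw [Nat.Ioc_succ_singleton, Finset.sum_singleton]
    rfl
  rw [h2] at h
  have h3 : one.f 0 = 1 := rfl
  omega

/-- **The supremum `α*` is attained**: `α*` itself is a threshold, i.e. every DAPS instance with
`L(V) ≤ α*` is feasible (and `α*` is the largest number with this property). -/
theorem result : IsGreatest thresholds alphaStar := by
  have hne : thresholds.Nonempty := by
    refine ⟨0, fun n V h => ?_⟩
    have h1 : density V ≤ L V := le_max_left _ _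
    have h2 := density_pos V
    linarith
  have hbdd : BddAbove thresholds := by
    refine ⟨L one, fun α hα => ?_⟩
    by_contra h
    push Not at h
    exact one_infeasible (hα 1 one h.le)
  have hmem : alphaStar ∈ thresholds := by
    intro n V hV
    by_contra hinf
    have h1 : L (dbl V) < alphaStar := (L_dbl V).trans_le hV
    obtain ⟨α, hα, hlt⟩ := exists_lt_of_lt_csSup hne h1
    exact hinf (feasible_of_dbl V (hα n (dbl V) hlt.le))
  exact ⟨hmem, fun α hα => le_csSup hbdd hα⟩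

end Pool.Agent.Results.MP_020ed8_lc.Attained
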