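import Mathlib

/-!
# Pinwheel scheduling with durations: a lower bound for `α*`
-/

namespace Pool.Agent.Results.MP_020ed8_lc.LowerBound

open Finset

/-- A DAPS instance with `n` jobs (`n ≥ 1`): frequencies `f` in increasing order and durations
`p`, all positive integers. -/
structure DAPS (n : ℕ) where
  f : Fin n → ℕ
  p : Fin n → ℕ
  n_pos : 0 < n
  f_pos : ∀ i, 0 < f i
  p_pos : ∀ i, 0 < p i
  mono : Monotone f

open Classical in
/-- `c_i(V,S)`: the supremum over consecutive elements `a < b` of `S⁻¹(i)` of the total duration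
of the jobs processed at steps `a+1, …, b`, and `∞` if `J_i` is processed only finitely often. -/
noncomputable def cost {n : ℕ} (V : DAPS n) (S : ℕ → Fin n) (i : Fin n) : ℕ∞ :=
  if {t | S t = i}.Infinite then
    ⨆ (a : ℕ) (b : ℕ) (_ : a < b ∧ S a = i ∧ S b = i ∧ ∀ t, a < t → t < b → S t ≠ i),
      ((∑ t ∈ Ioc a b, V.p (S t) : ℕ) : ℕ∞)
  else ⊤

/-- The instance is feasible: some schedule `S` has `c_i(V,S) ≤ f_i` for all `i`. -/
def Feasible {n : ℕ} (V : DAPS n) : Prop :=
  ∃ S : ℕ → Fin n, ∀ i, cost V S i ≤ (V.f i : ℕ∞)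

/-- The density. -/
noncomputable def density {n : ℕ} (V : DAPS n) : ℝ := ∑ i, (V.p i : ℝ) / (V.f i : ℝ)

/-- The localized measure: the maximum over `i < j` of
`(∑ k ≤ i, ⌊f_i/f_k⌋ p_k + p_j) / f_i`, and `0` if `n = 1`. -/
noncomputable def locMeasure {n : ℕ} (V : DAPS n) : ℝ :=
  ⨆ q : {q : Fin n × Fin n // q.1 < q.2},
    ((∑ k ∈ Finset.univ.filter (· ≤ q.1.1), (V.f q.1.1 / V.f k) * V.p k : ℕ) + V.p q.1.2 : ℝ) /
      (V.f q.1.1 : ℝ)

/-- `L(V) = max(ρ(V), μ(V))`. -/
noncomputable def L {n : ℕ} (V : DAPS n) : ℝ := max (density V) (locMeasure V)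

/-- The set of thresholds `α` such that every instance with `L(V) ≤ α` is feasible. -/
def thresholds : Set ℝ := {α | ∀ (n : ℕ) (V : DAPS n), L V ≤ α → Feasible V}

/-- `α*`. -/
noncomputable def alphaStar : ℝ := sSup thresholds

theorem gap_le {n : ℕ} (V : DAPS n) (S : ℕ → Fin n) (i : Fin n) (F : ℕ)
    (hinf : {t | S t = i}.Infinite)
    (h : ∀ a b, a < b → S a = i → S b = i →
      (∀ t, a < t → t < b → S t ≠ i) → ∑ t ∈ Ioc a b, V.p (S t) ≤ F) :
    cost V S i ≤ (F : ℕ∞) := by
  unfold cost
  rw [if_pos hinf]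
  refine iSup_le fun a => iSup_le fun b => iSup_le fun hab => ?_
  exact_mod_cast h a b hab.1 hab.2.1 hab.2.2.1 hab.2.2.2

/-! ### From occurrence patterns to schedules -/

/-- A pattern of processings on the keys `w : ℕ`, at most one job per key, gives a schedule. -/
theorem feasible_of_occ {n : ℕ} (V : DAPS n) (occ : Fin n → ℕ → Prop)
    [∀ i w, Decidable (occ i w)]
    (huniq : ∀ w i j, occ i w → occ j w → i = j)
    (hex : ∀ i, ∃ w, occ i w)
    (hnext : ∀ i u, occ i u → ∃ v, u < v ∧ occ i v ∧
      (∑ w ∈ Ioc u v, ∑ j, if occ j w then V.p j else 0) ≤ V.f i) : Feasible V := by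
  classical
  have hfar : ∀ i N, ∃ w, N < w ∧ occ i w := by
    intro i N
    induction N with
    | zero =>
      obtain ⟨w, hw⟩ := hex i
      obtain ⟨v, hv, hv', -⟩ := hnext i w hw
      exact ⟨v, by omega, hv'⟩
    | succ N ih =>
      obtain ⟨w, hw, hw'⟩ := ih
      obtain ⟨v, hv, hv', -⟩ := hnext i w hw'
      exact ⟨v, by omega, hv'⟩
  set Q : ℕ → Prop := fun w => ∃ j, occ j w with hQ
  have hinf : {w | Q w}.Infinite := by
    refine Set.infinite_of_forall_exists_gt fun N => ?_
    obtain ⟨w, hw, hw'⟩ := hfar ⟨0, V.n_pos⟩ N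
    exact ⟨w, ⟨_, hw'⟩, hw⟩
  have hnth : ∀ t, Q (Nat.nth Q t) := fun t => Nat.nth_mem_of_infinite hinf t
  choose S hS using hnth
  have hSi : ∀ t i, occ i (Nat.nth Q t) → S t = i := fun t i h => huniq _ _ _ (hS t) h
  have hlt : ∀ s t, Nat.nth Q s < Nat.nth Q t ↔ s < t := fun s t => Nat.nth_lt_nth hinf
  have hex' : ∀ w i, occ i w → ∃ t, Nat.nth Q t = w ∧ S t = i := by
    intro w i h
    have h1 : Nat.nth Q (Nat.count Q w) = w := Nat.nth_count ⟨i, h⟩
    exact ⟨_, h1, hSi _ _ (by rw [h1]; exact h)⟩
  refine ⟨S, fun i => gap_le V S i _ ?_ ?_⟩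
  · refine Set.infinite_of_forall_exists_gt fun N => ?_
    obtain ⟨w, hw, hw'⟩ := hfar i (Nat.nth Q N)
    obtain ⟨t, ht, ht'⟩ := hex' w i hw'
    exact ⟨t, ht', (hlt _ _).1 (by rw [ht]; exact hw)⟩
  · intro a b hab ha hb hno
    have hu : occ i (Nat.nth Q a) := by rw [← ha]; exact hS a
    obtain ⟨v, huv, hv, hsum⟩ := hnext i _ hu
    obtain ⟨t, ht, ht'⟩ := hex' v i hv
    have hat : a < t := (hlt _ _).1 (by rw [ht]; exact huv)
    have hbt : b ≤ t := by
      by_contra hcon
      exact hno t hat (by omega) ht'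
    refine le_trans ?_ hsum
    have h1 : ∑ t ∈ Ioc a b, V.p (S t) =
        ∑ w ∈ (Ioc a b).image (Nat.nth Q), ∑ j, if occ j w then V.p j else 0 := by
      rw [Finset.sum_image]
      · refine Finset.sum_congr rfl fun s _ => ?_
        rw [Finset.sum_eq_single (S s)]
        · rw [if_pos (hS s)]
        · intro j _ hj
          rw [if_neg]
          intro h
          exact hj (hSi _ _ h).symm
        · intro h
          exact absurd (Finset.mem_univ _) h
      · intro s _ s' _ h
        exact Nat.nth_injective hinf h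
    rw [h1]
    refine Finset.sum_le_sum_of_subset ?_
    intro w hw
    obtain ⟨s, hs, rfl⟩ := Finset.mem_image.1 hw
    rw [Finset.mem_Ioc] at hs ⊢
    refine ⟨(hlt _ _).2 hs.1, ?_⟩
    rw [← ht]
    rcases Nat.lt_or_ge s t with h | h
    · exact ((hlt _ _).2 h).le
    · have : s = t := by omega
      rw [this]


theorem sum_mod_count (a K r : ℕ) (hr : r < 2 ^ a) (haK : a ≤ K) (x : ℝ) :
    ∑ t ∈ range (2 ^ K), (if t % 2 ^ a = r then x else 0) = 2 ^ K * (x / 2 ^ a) := by
  obtain ⟨m, rfl⟩ := Nat.exists_eq_add_of_le haK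
  have h1 : ∀ M : ℕ, ∑ t ∈ range (2 ^ a * M), (if t % 2 ^ a = r then x else 0) = M * x := by
    intro M
    induction M with
    | zero => simp
    | succ M ih =>
      rw [Nat.mul_succ, Finset.sum_range_add, ih]
      have h2 : ∑ t ∈ range (2 ^ a), (if (2 ^ a * M + t) % 2 ^ a = r then x else 0) = x := by
        rw [Finset.sum_eq_single r]
        · rw [if_pos]
          rw [Nat.mul_add_mod, Nat.mod_eq_of_lt hr]
        · intro b hb hbr
          rw [if_neg]
          rw [Nat.mul_add_mod, Nat.mod_eq_of_lt (Finset.mem_range.1 hb)]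
          exact hbr
        · intro h
          exact absurd (Finset.mem_range.2 hr) h
      rw [h2]
      push_cast
      ring
  rw [pow_add, h1]
  have : (2 : ℝ) ^ a ≠ 0 := by positivity
  push_cast
  field_simp
  rw [pow_add]
  ring

/-- The load of the `m`-th block of `2 ^ l` slots. -/
noncomputable def bl {n : ℕ} (p k r : Fin n → ℕ) (s : Finset (Fin n)) (l m : ℕ) : ℝ :=
  ∑ i ∈ s, (p i : ℝ) * (if k i ≤ l then (2 : ℝ) ^ (l - k i)
    else if m % 2 ^ (k i - l) = r i / 2 ^ l then 1 else 0)

theorem packing {n : ℕ} (p : Fin n → ℕ) (k : Fin n → ℕ) (M : ℝ) (PP : ℕ → ℝ)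
    (hp : ∀ i, 0 < p i) (hPP : ∀ i l, l < k i → (p i : ℝ) ≤ PP l)
    (hM : ∑ i, (p i : ℝ) / 2 ^ k i ≤ M) (s : Finset (Fin n)) :
    ∃ (r : Fin n → ℕ) (Φ : ℕ → ℝ), (∀ i ∈ s, r i < 2 ^ k i) ∧ Monotone Φ ∧ Φ 0 = 0 ∧
      (∀ l, (∀ i ∈ s, k i ≤ l) → Φ (2 ^ l) = 2 ^ l * (M - ∑ i ∈ s, (p i : ℝ) / 2 ^ k i) ∧
        ∀ c τ, Φ (c * 2 ^ l + τ) = c * Φ (2 ^ l) + Φ τ) ∧
      (∀ i ∈ s, ∀ t, t % 2 ^ k i < r i → Φ (t + 1) = Φ t) ∧
      (∀ i ∈ s, ∀ j ∈ s, k i < k j → r i ≤ r j % 2 ^ k i) ∧
      (∀ l m, (Φ ((m + 1) * 2 ^ l) = Φ (m * 2 ^ l) ∧ bl p k r s l m ≤ 2 ^ l * M + PP l) ∨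
        bl p k r s l m ≤ 2 ^ l * M - (Φ ((m + 1) * 2 ^ l) - Φ (m * 2 ^ l))) := by
  classical
  have hpos : ∀ i, (0 : ℝ) ≤ (p i : ℝ) / 2 ^ k i := fun i => by positivity
  have hMnn : 0 ≤ M := (Finset.sum_nonneg fun i _ => hpos i).trans hM
  refine Finset.induction_on_max_value k s ?_ ?_
  · refine ⟨fun _ => 0, fun t => M * t, by simp, ?_, by simp, ?_, by simp, by simp, ?_⟩
    · intro a b hab
      exact mul_le_mul_of_nonneg_left (by exact_mod_cast hab) hMnn
    · intro l _
      refine ⟨by simp; ring, fun c τ => ?_⟩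
      push_cast
      ring
    · intro l m
      refine Or.inr ?_
      simp only [bl, Finset.sum_empty]
      push_cast
      ring_nf
      exact le_rfl
  · rintro a s ha hmax ⟨r, Φ, hr, hmono, hΦ0, hlev, hzero, hord, hbl⟩
    set K := k a with hK
    set N := 2 ^ K with hN
    have hNpos : 0 < N := by positivity
    set Ms := ∑ i ∈ s, (p i : ℝ) / 2 ^ k i with hMs
    have hins : ∑ i ∈ insert a s, (p i : ℝ) / 2 ^ k i = (p a : ℝ) / 2 ^ K + Ms :=
      Finset.sum_insert ha
    have hle : (p a : ℝ) / 2 ^ K + Ms ≤ M := by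
      rw [← hins]
      exact (Finset.sum_le_sum_of_subset_of_nonneg (Finset.subset_univ _)
        fun i _ _ => hpos i).trans hM
    obtain ⟨hΦN, hquasi⟩ := hlev K hmax
    rw [← hN] at hΦN
    have hpa : (0 : ℝ) < p a := by exact_mod_cast hp a
    have hNR : (0 : ℝ) < 2 ^ K := by positivity
    have hΦNp : (p a : ℝ) ≤ Φ N := by
      rw [hΦN]
      have h1 : (p a : ℝ) / 2 ^ K ≤ M - Ms := by linarith
      rw [div_le_iff₀ hNR] at h1
      linarith
    have hnn : ∀ t, 0 ≤ Φ t := fun t => by rw [← hΦ0]; exact hmono (Nat.zero_le _)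
    -- the slot of the new job
    have hex : ∃ τ, 0 < Φ (τ + 1) := by
      refine ⟨N - 1, ?_⟩
      rw [Nat.sub_add_cancel hNpos]
      linarith
    set ra := Nat.find hex with hra
    have hra1 : 0 < Φ (ra + 1) := Nat.find_spec hex
    have hra0 : Φ ra = 0 := by
      rcases Nat.eq_zero_or_pos ra with h | h
      · rw [h, hΦ0]
      · have h1 := Nat.find_min hex (show ra - 1 < ra by omega)
        rw [Nat.sub_add_cancel h] at h1
        exact le_antisymm (not_lt.1 h1) (hnn _)
    have hraN : ra < N := by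
      by_contra hcon
      have h1 : Φ N ≤ Φ ra := hmono (by omega)
      rw [hra0] at h1
      linarith
    have hbelow : ∀ τ, τ ≤ ra → Φ τ = 0 := fun τ h =>
      le_antisymm ((hmono h).trans hra0.le) (hnn _)
    -- the new free space
    set Ψ : ℕ → ℝ := fun t => (t / N : ℕ) * (Φ N - p a) + max (Φ (t % N) - p a) 0 with hΨ
    have hV : ∀ c τ, τ ≤ N → Ψ (c * N + τ) = c * (Φ N - p a) + max (Φ τ - p a) 0 := by
      intro c τ hτ
      simp only [hΨ]
      rcases Nat.lt_or_ge τ N with h | h
      · have h1 : (c * N + τ) / N = c := by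
          rw [Nat.mul_comm, Nat.mul_add_div hNpos, Nat.div_eq_of_lt h, Nat.add_zero]
        have h2 : (c * N + τ) % N = τ := by
          rw [Nat.mul_comm, Nat.mul_add_mod, Nat.mod_eq_of_lt h]
        rw [h1, h2]
      · have h3 : τ = N := le_antisymm hτ h
        rw [h3]
        have h1 : (c * N + N) / N = c + 1 := by
          rw [show c * N + N = (c + 1) * N by ring]
          exact Nat.mul_div_cancel _ hNpos
        have h2 : (c * N + N) % N = 0 := by
          rw [show c * N + N = (c + 1) * N by ring]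
          exact Nat.mul_mod_left _ _
        rw [h1, h2, hΦ0, max_eq_right (by linarith), max_eq_left (by linarith)]
        push_cast
        ring
    have hΨ0 : Ψ 0 = 0 := by
      have := hV 0 0 (Nat.zero_le _)
      rw [Nat.zero_mul, Nat.add_zero, hΦ0, max_eq_right (by linarith)] at this
      rw [this]
      simp
    have hsucc : ∀ t, Ψ (t + 1) - Ψ t =
        max (Φ (t % N + 1) - p a) 0 - max (Φ (t % N) - p a) 0 := by
      intro t
      have hlt : t % N < N := Nat.mod_lt _ hNpos
      have h1 := hV (t / N) (t % N) hlt.le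
      have h2 := hV (t / N) (t % N + 1) hlt
      rw [← Nat.add_assoc] at h2
      rw [Nat.div_add_mod' t N] at h1 h2
      rw [h1, h2]
      ring
    refine ⟨Function.update r a ra, Ψ, ?_, ?_, hΨ0, ?_, ?_, ?_, ?_⟩
    · -- residues
      intro i hi
      rcases Finset.mem_insert.1 hi with hia | his
      · rw [hia, Function.update_self]
        exact hraN
      · rw [Function.update_of_ne]
        · exact hr i his
        · intro hia
          rw [hia] at his
          exact ha his
    · refine monotone_nat_of_le_succ fun t => ?_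
      have h1 := hsucc t
      have h2 : max (Φ (t % N) - p a) 0 ≤ max (Φ (t % N + 1) - p a) 0 :=
        max_le_max (by have := hmono (Nat.le_succ (t % N)); simp only [Nat.succ_eq_add_one] at this; linarith) le_rfl
      linarith
    · -- levels
      intro l hl
      have hKl : K ≤ l := hl a (Finset.mem_insert_self _ _)
      obtain ⟨d, rfl⟩ := Nat.exists_eq_add_of_le hKl
      have hpow : 2 ^ (K + d) = 2 ^ d * N := by rw [hN, pow_add, Nat.mul_comm]
      have h1 : Ψ (2 ^ (K + d)) = 2 ^ d * (Φ N - p a) := by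
        have h2 := hV (2 ^ d) 0 (Nat.zero_le _)
        rw [Nat.add_zero, hΦ0, max_eq_right (by linarith), add_zero] at h2
        rw [hpow, h2]
        push_cast
        ring
      constructor
      · rw [h1, hΦN, hins, pow_add]
        field_simp
        ring
      · intro c τ
        have hlt : τ % N < N := Nat.mod_lt _ hNpos
        have h3 : c * 2 ^ (K + d) + τ = (c * 2 ^ d + τ / N) * N + τ % N := by
          conv_lhs => rw [← Nat.div_add_mod' τ N]
          rw [hpow]
          ring
        have h4 := hV (τ / N) (τ % N) hlt.le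
        rw [Nat.div_add_mod' τ N] at h4
        rw [h3, hV _ _ hlt.le, h4, h1]
        push_cast
        ring
    · -- full slots
      intro i hi t ht
      have h1 := hsucc t
      have h2 : Φ (t % N + 1) = Φ (t % N) := by
        rcases Finset.mem_insert.1 hi with hia | his
        · subst hia
          rw [Function.update_self] at ht
          rw [← hK, ← hN] at ht
          rw [hbelow _ ht.le, hbelow _ ht]
        · have hne : i ≠ a := by
            intro hia
            rw [hia] at his
            exact ha his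
          rw [Function.update_of_ne hne] at ht
          refine hzero i his _ ?_
          rwa [Nat.mod_mod_of_dvd t (pow_dvd_pow 2 (hmax i his))]
      rw [h2] at h1
      linarith
    · -- order
      intro i hi j hj hij
      rcases Finset.mem_insert.1 hj with hja | hjs
      · subst hja
        have hne : i ≠ j := by
          intro h
          rw [h] at hij
          exact lt_irrefl _ hij
        have his : i ∈ s := (Finset.mem_insert.1 hi).resolve_left hne
        rw [Function.update_self, Function.update_of_ne hne]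
        by_contra hcon
        have h1 := hzero i his ra (by omega)
        rw [hra0] at h1
        linarith
      · have hja : j ≠ a := by
          intro h
          rw [h] at hjs
          exact ha hjs
        have hne : i ≠ a := by
          intro h
          rw [h] at hij
          exact absurd (hmax j hjs) (by omega)
        have his : i ∈ s := (Finset.mem_insert.1 hi).resolve_left hne
        rw [Function.update_of_ne hja, Function.update_of_ne hne]
        exact hord i his j hjs hij
    · -- block loads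
      intro l m
      have hbins : bl p k (Function.update r a ra) (insert a s) l m =
          (p a : ℝ) * (if K ≤ l then (2 : ℝ) ^ (l - K)
            else if m % 2 ^ (K - l) = ra / 2 ^ l then 1 else 0) + bl p k r s l m := by
        unfold bl
        rw [Finset.sum_insert ha, Function.update_self]
        congr 1
        refine Finset.sum_congr rfl fun i hi => ?_
        rw [Function.update_of_ne]
        intro hia
        rw [hia] at hi
        exact ha hi
      rcases Nat.lt_or_ge l K with hlK | hlK
      · -- small blocks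
        set d := K - l with hd
        have hNd : N = 2 ^ d * 2 ^ l := by
          rw [hN, ← pow_add]
          congr 1
          omega
        set c := m / 2 ^ d with hc
        set μ := m % 2 ^ d with hμ
        have hμlt : μ < 2 ^ d := Nat.mod_lt _ (by positivity)
        have hm : m = c * 2 ^ d + μ := (Nat.div_add_mod' m (2 ^ d)).symm
        have hg : m * 2 ^ l = c * N + μ * 2 ^ l := by
          rw [hNd]
          conv_lhs => rw [hm]
          ring
        have he : (m + 1) * 2 ^ l = c * N + (μ + 1) * 2 ^ l := by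
          rw [hNd]
          conv_lhs => rw [hm]
          ring
        have hεN : (μ + 1) * 2 ^ l ≤ N := by
          rw [hNd]
          exact Nat.mul_le_mul_right _ hμlt
        have hγN : μ * 2 ^ l ≤ N := (Nat.mul_le_mul_right _ (Nat.le_succ _)).trans hεN
        have hΦe : Φ ((m + 1) * 2 ^ l) = c * Φ N + Φ ((μ + 1) * 2 ^ l) := by
          rw [he]
          exact hquasi c _
        have hΦg : Φ (m * 2 ^ l) = c * Φ N + Φ (μ * 2 ^ l) := by
          rw [hg]
          exact hquasi c _
        have hΨe : Ψ ((m + 1) * 2 ^ l) = c * (Φ N - p a) + max (Φ ((μ + 1) * 2 ^ l) - p a) 0 := by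
          rw [he]
          exact hV c _ hεN
        have hΨg : Ψ (m * 2 ^ l) = c * (Φ N - p a) + max (Φ (μ * 2 ^ l) - p a) 0 := by
          rw [hg]
          exact hV c _ hγN
        have hmm : Φ (μ * 2 ^ l) ≤ Φ ((μ + 1) * 2 ^ l) :=
          hmono (Nat.mul_le_mul_right _ (Nat.le_succ _))
        have hold := hbl l m
        rw [hΦe, hΦg] at hold
        rw [hΨe, hΨg, hbins, if_neg (by omega)]
        by_cases hcase : μ = ra / 2 ^ l
        · rw [if_pos hcase, mul_one]
          have h2l : 0 < 2 ^ l := by positivity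
          have h1 : μ * 2 ^ l ≤ ra := by
            rw [hcase]
            exact Nat.div_mul_le_self _ _
          have h2 : ra + 1 ≤ (μ + 1) * 2 ^ l := by
            rw [hcase]
            have := Nat.lt_succ_self (ra / 2 ^ l)
            exact (Nat.div_lt_iff_lt_mul h2l).1 this
          have h3 : Φ (μ * 2 ^ l) = 0 := hbelow _ h1
          have h4 : 0 < Φ ((μ + 1) * 2 ^ l) := hra1.trans_le (hmono h2)
          rw [h3] at hold ⊢
          rw [max_eq_right (show (0 : ℝ) - p a ≤ 0 by linarith)]
          rcases hold with ⟨h5, -⟩ | h5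
          · exfalso
            linarith
          · rcases le_total (Φ ((μ + 1) * 2 ^ l)) (p a) with h6 | h6
            · rw [max_eq_right (by linarith)]
              refine Or.inl ⟨rfl, ?_⟩
              have h7 := hPP a l hlK
              linarith
            · rw [max_eq_left (by linarith)]
              refine Or.inr ?_
              linarith
        · rw [if_neg hcase, mul_zero, zero_add]
          rcases hold with ⟨h5, h6⟩ | h5
          · have h7 : Φ ((μ + 1) * 2 ^ l) = Φ (μ * 2 ^ l) := by linarith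
            rw [h7]
            exact Or.inl ⟨rfl, h6⟩
          · refine Or.inr ?_
            have h7 : max (Φ ((μ + 1) * 2 ^ l) - p a) 0 - max (Φ (μ * 2 ^ l) - p a) 0 ≤
                Φ ((μ + 1) * 2 ^ l) - Φ (μ * 2 ^ l) := by
              rcases le_total (Φ ((μ + 1) * 2 ^ l) - p a) 0 with h8 | h8
              · rw [max_eq_right h8]
                have := le_max_right (Φ (μ * 2 ^ l) - p a) 0
                linarith
              · rw [max_eq_left h8]
                have := le_max_left (Φ (μ * 2 ^ l) - p a) 0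
                linarith
            linarith
      · -- large blocks
        refine Or.inr ?_
        obtain ⟨d, hd⟩ := Nat.exists_eq_add_of_le hlK
        have h1 : bl p k r s l m = 2 ^ l * Ms := by
          rw [hMs, Finset.mul_sum]
          unfold bl
          refine Finset.sum_congr rfl fun i hi => ?_
          have h2 : k i ≤ l := (hmax i hi).trans hlK
          rw [if_pos h2]
          have h3 : (2 : ℝ) ^ l = 2 ^ (l - k i) * 2 ^ k i := by
            rw [← pow_add]
            congr 1
            omega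
          rw [h3]
          have h4 : (2 : ℝ) ^ k i ≠ 0 := by positivity
          field_simp
        have hpow : 2 ^ l = 2 ^ d * N := by rw [hN, hd, pow_add, Nat.mul_comm]
        have h5 : ∀ x : ℕ, Ψ (x * 2 ^ l) = x * (2 ^ d * (Φ N - p a)) := by
          intro x
          have h6 := hV (x * 2 ^ d) 0 (Nat.zero_le _)
          rw [Nat.add_zero, hΦ0, max_eq_right (by linarith), add_zero] at h6
          rw [hpow, ← Nat.mul_assoc, h6]
          push_cast
          ring
        rw [hbins, if_pos hlK, h1, h5, h5, hΦN, hd]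
        have h7 : K + d - K = d := by omega
        rw [h7, pow_add]
        push_cast
        have : (2 : ℝ) ^ K ≠ 0 := by positivity
        nlinarith [mul_pos hNR (show (0 : ℝ) < 2 ^ d by positivity)]

theorem cum (B s u : ℕ) (hs : s < B) (hu : u < B) (τ : ℕ → ℝ) (c : ℕ) :
    ∑ w ∈ range (c * B + u + 1), (if w % B = s then τ (w / B) else 0) =
      ∑ c' ∈ range c, τ c' + (if s ≤ u then τ c else 0) := by
  have hB : 0 < B := by omega
  have hpart : ∀ (c m : ℕ), m ≤ B → ∑ x ∈ range m, (if (c * B + x) % B = s then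
      τ ((c * B + x) / B) else 0) = if s < m then τ c else 0 := by
    intro c m hm
    have h1 : ∀ x ∈ range m, (if (c * B + x) % B = s then τ ((c * B + x) / B) else 0) =
        if x = s then τ c else 0 := by
      intro x hx
      rw [Finset.mem_range] at hx
      have h2 : (c * B + x) % B = x := by
        rw [Nat.mul_comm, Nat.mul_add_mod]
        exact Nat.mod_eq_of_lt (by omega)
      have h3 : (c * B + x) / B = c := by
        rw [Nat.mul_comm, Nat.mul_add_div hB, Nat.div_eq_of_lt (by omega), Nat.add_zero]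
      rw [h2, h3]
    rw [Finset.sum_congr rfl h1, Finset.sum_ite_eq']
    simp only [Finset.mem_range]
  have hfull : ∀ c : ℕ, ∑ w ∈ range (c * B), (if w % B = s then τ (w / B) else 0) =
      ∑ c' ∈ range c, τ c' := by
    intro c
    induction c with
    | zero => simp
    | succ c ih =>
      rw [Nat.succ_mul, Finset.sum_range_add, ih, hpart c B le_rfl, if_pos hs,
        Finset.sum_range_succ]
  rw [Nat.add_assoc, Finset.sum_range_add, hfull, hpart c (u + 1) (by omega)]
  congr 1
  by_cases h : s ≤ u
  · rw [if_pos h, if_pos (by omega)]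
  · rw [if_neg h, if_neg (by omega)]

theorem sum_Ioc_sub (g : ℕ → ℝ) (u v : ℕ) (h : u ≤ v) :
    ∑ w ∈ Ioc u v, g w = ∑ w ∈ range (v + 1), g w - ∑ w ∈ range (u + 1), g w := by
  have h1 : Ioc u v = Ico (u + 1) (v + 1) := by
    ext x
    simp only [Finset.mem_Ioc, Finset.mem_Ico]
    omega
  rw [h1, Finset.sum_Ico_eq_sub _ (by omega)]


theorem count_le (a K r : ℕ) (hr : r < 2 ^ a) (haK : a ≤ K) (t : ℕ) :
    (∑ x ∈ range (t + 2 ^ K), (if x % 2 ^ a = r then (1 : ℝ) else 0)) -
      ∑ x ∈ range t, (if x % 2 ^ a = r then (1 : ℝ) else 0) = 2 ^ (K - a) := by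
  induction t with
  | zero =>
    rw [Nat.zero_add, sum_mod_count a K r hr haK]
    simp only [Finset.sum_range_zero, sub_zero]
    obtain ⟨d, rfl⟩ := Nat.exists_eq_add_of_le haK
    rw [Nat.add_sub_cancel_left, pow_add]
    have : (2 : ℝ) ^ a ≠ 0 := by positivity
    field_simp
  | succ t ih =>
    rw [show t + 1 + 2 ^ K = t + 2 ^ K + 1 by ring, Finset.sum_range_succ,
      Finset.sum_range_succ]
    have h1 : (t + 2 ^ K) % 2 ^ a = t % 2 ^ a := by
      obtain ⟨e, he⟩ := pow_dvd_pow 2 haK
      rw [he, Nat.add_mul_mod_self_left]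
    rw [h1]
    linarith

theorem count_gt (a K r : ℕ) (haK : K < a) (m ρ : ℕ) (hρ : ρ < 2 ^ K)
    (hρr : ρ ≤ r % 2 ^ K) :
    (∑ x ∈ range (m * 2 ^ K + ρ + 2 ^ K), (if x % 2 ^ a = r then (1 : ℝ) else 0)) -
      ∑ x ∈ range (m * 2 ^ K + ρ), (if x % 2 ^ a = r then (1 : ℝ) else 0) =
      if m % 2 ^ (a - K) = r / 2 ^ K then 1 else 0 := by
  have hNpos : 0 < 2 ^ K := by positivity
  have ha : 2 ^ a = 2 ^ K * 2 ^ (a - K) := by
    rw [← pow_add]
    congr 1
    omega
  have hmod : ∀ m x, x < 2 ^ K → (m * 2 ^ K + x) % 2 ^ a = x + 2 ^ K * (m % 2 ^ (a - K)) := by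
    intro m x hx
    rw [ha, Nat.mod_mul]
    have h1 : (m * 2 ^ K + x) % 2 ^ K = x := by
      rw [Nat.mul_comm, Nat.mul_add_mod, Nat.mod_eq_of_lt hx]
    have h2 : (m * 2 ^ K + x) / 2 ^ K = m := by
      rw [Nat.mul_comm, Nat.mul_add_div hNpos, Nat.div_eq_of_lt hx, Nat.add_zero]
    rw [h1, h2]
  have hr : r = r % 2 ^ K + 2 ^ K * (r / 2 ^ K) := (Nat.mod_add_div r (2 ^ K)).symm
  have hiff : ∀ m x, x < 2 ^ K → ((m * 2 ^ K + x) % 2 ^ a = r ↔
      x = r % 2 ^ K ∧ m % 2 ^ (a - K) = r / 2 ^ K) := by
    intro m x hx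
    rw [hmod m x hx]
    constructor
    · intro h
      have h1 : r % 2 ^ K = x := by
        rw [← h, Nat.add_mul_mod_self_left, Nat.mod_eq_of_lt hx]
      have h2 : r / 2 ^ K = m % 2 ^ (a - K) := by
        rw [← h, Nat.add_mul_div_left _ _ hNpos, Nat.div_eq_of_lt hx, Nat.zero_add]
      exact ⟨h1.symm, h2.symm⟩
    · rintro ⟨h1, h2⟩
      rw [h1, h2]
      exact hr.symm
  have hpre : ∀ m, ∑ x ∈ range (m * 2 ^ K + ρ), (if x % 2 ^ a = r then (1 : ℝ) else 0) =
      ∑ x ∈ range (m * 2 ^ K), (if x % 2 ^ a = r then (1 : ℝ) else 0) := by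
    intro m
    rw [Finset.sum_range_add]
    have h1 : ∑ x ∈ range ρ, (if (m * 2 ^ K + x) % 2 ^ a = r then (1 : ℝ) else 0) = 0 := by
      refine Finset.sum_eq_zero fun x hx => ?_
      rw [Finset.mem_range] at hx
      rw [if_neg]
      rw [hiff m x (hx.trans hρ)]
      rintro ⟨h1, -⟩
      omega
    rw [h1, add_zero]
  rw [show m * 2 ^ K + ρ + 2 ^ K = (m + 1) * 2 ^ K + ρ by ring, hpre, hpre,
    show (m + 1) * 2 ^ K = m * 2 ^ K + 2 ^ K by ring, Finset.sum_range_add, add_sub_cancel_left]
  by_cases h : m % 2 ^ (a - K) = r / 2 ^ K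
  · rw [if_pos h, Finset.sum_eq_single (r % 2 ^ K)]
    · rw [if_pos]
      exact (hiff m _ (Nat.mod_lt _ hNpos)).2 ⟨rfl, h⟩
    · intro x hx hxr
      rw [if_neg]
      rw [hiff m x (Finset.mem_range.1 hx)]
      rintro ⟨h1, -⟩
      exact hxr h1
    · intro h1
      exact absurd (Finset.mem_range.2 (Nat.mod_lt _ hNpos)) h1
  · rw [if_neg h]
    refine Finset.sum_eq_zero fun x hx => ?_
    rw [if_neg]
    rw [hiff m x (Finset.mem_range.1 hx)]
    rintro ⟨-, h1⟩
    exact h h1

theorem feasible_of_packing {n : ℕ} (V : DAPS n) (k r : Fin n → ℕ)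
    (hr : ∀ i, r i < 2 ^ k i) (hord : ∀ i j, k i < k j → r i ≤ r j % 2 ^ k i)
    (hbl : ∀ i m, bl V.p k r univ (k i) m ≤ V.f i) : Feasible V := by
  classical
  have hn : 0 < n := V.n_pos
  obtain ⟨Km, hKm⟩ : ∃ Km, ∀ i, k i ≤ Km :=
    ⟨Finset.univ.sup k, fun i => Finset.le_sup (Finset.mem_univ i)⟩
  set W := n * (Km + 1) with hW
  set q : Fin n → ℕ := fun i => n * k i + i with hq
  have hqW : ∀ i, q i < W := by
    intro i
    have h1 : n * k i ≤ n * Km := Nat.mul_le_mul_left _ (hKm i)
    have h2 := i.isLt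
    simp only [hq, hW]
    rw [Nat.mul_succ]
    omega
  have hWpos : 0 < W := by
    have := hqW ⟨0, hn⟩
    omega
  have hqk : ∀ i j, q j ≤ q i → k j ≤ k i := by
    intro i j h
    by_contra hcon
    have h1 : n * (k i + 1) ≤ n * k j := Nat.mul_le_mul_left _ (by omega)
    have h2 := i.isLt
    simp only [hq] at h
    rw [Nat.mul_succ] at h1
    omega
  have hqinj : ∀ i j, q i = q j → i = j := by
    intro i j h
    have h1 : q i % n = q j % n := by rw [h]
    simp only [hq, Nat.mul_add_mod, Nat.mod_eq_of_lt i.isLt, Nat.mod_eq_of_lt j.isLt] at h1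
    exact Fin.ext h1
  have hdm : ∀ c x, x < W → (c * W + x) % W = x ∧ (c * W + x) / W = c := by
    intro c x hx
    refine ⟨by rw [Nat.mul_comm, Nat.mul_add_mod, Nat.mod_eq_of_lt hx], ?_⟩
    rw [Nat.mul_comm, Nat.mul_add_div hWpos, Nat.div_eq_of_lt hx, Nat.add_zero]
  set τ : Fin n → ℕ → ℝ := fun i c => if c % 2 ^ k i = r i then 1 else 0 with hτ
  set occ : Fin n → ℕ → Prop := fun i w => w % W = q i ∧ (w / W) % 2 ^ k i = r i with hocc
  have hoccR : ∀ j w, (if occ j w then (V.p j : ℝ) else 0) =
      (V.p j : ℝ) * (if w % W = q j then τ j (w / W) else 0) := by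
    intro j w
    simp only [hocc, hτ]
    by_cases h3 : w % W = q j
    · simp only [h3, true_and, if_true]
      split_ifs <;> simp
    · simp only [h3, false_and, if_false, mul_zero]
  have hwin : ∀ c u c' v, u < W → v < W → c * W + u ≤ c' * W + v →
      ((∑ w ∈ Ioc (c * W + u) (c' * W + v), ∑ j, if occ j w then V.p j else 0 : ℕ) : ℝ) =
      ∑ j, (V.p j : ℝ) *
        ((∑ x ∈ range c', τ j x + (if q j ≤ v then τ j c' else 0))
          - (∑ x ∈ range c, τ j x + (if q j ≤ u then τ j c else 0))) := by
    intro c u c' v hu hv hle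
    push_cast
    rw [Finset.sum_comm]
    refine Finset.sum_congr rfl fun j _ => ?_
    rw [Finset.sum_congr rfl fun w _ => hoccR j w, ← Finset.mul_sum, sum_Ioc_sub _ _ _ hle,
      cum W (q j) v (hqW j) hv (τ j) c', cum W (q j) u (hqW j) hu (τ j) c]
  refine feasible_of_occ V occ ?_ ?_ ?_
  · rintro w i j ⟨h1, -⟩ ⟨h2, -⟩
    exact hqinj i j (by omega)
  · intro i
    refine ⟨r i * W + q i, (hdm (r i) _ (hqW i)).1, ?_⟩
    rw [(hdm (r i) _ (hqW i)).2]
    exact Nat.mod_eq_of_lt (hr i)
  · rintro i u ⟨hu, hu'⟩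
    set c := u / W with hc
    have huc : u = c * W + u % W := by
      rw [hc, Nat.mul_comm]
      exact (Nat.div_add_mod u W).symm
    set N := 2 ^ k i with hN
    have hNpos : 0 < N := by positivity
    refine ⟨(c + N) * W + q i, ?_, ⟨(hdm (c + N) _ (hqW i)).1, ?_⟩, ?_⟩
    · have : (c + 1) * W ≤ (c + N) * W := Nat.mul_le_mul_right _ (by omega)
      rw [Nat.succ_mul] at this
      omega
    · rw [(hdm (c + N) _ (hqW i)).2, Nat.add_mod_right]
      exact hu'
    · have hcast : ∀ S : ℕ, (S : ℝ) ≤ V.f i → S ≤ V.f i := fun S h => by exact_mod_cast h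
      refine hcast _ ?_
      have hle : c * W + q i ≤ (c + N) * W + q i := by
        have : c * W ≤ (c + N) * W := Nat.mul_le_mul_right _ (by omega)
        omega
      rw [huc, hu, hwin c (q i) (c + N) (q i) (hqW i) (hqW i) hle]
      refine le_trans (le_of_eq ?_) (hbl i (c / N))
      unfold bl
      refine Finset.sum_congr rfl fun j _ => ?_
      congr 1
      have hshift : k j ≤ k i → τ j (c + N) = τ j c := by
        intro h
        simp only [hτ]
        have h1 : (c + N) % 2 ^ k j = c % 2 ^ k j := by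
          obtain ⟨e, he⟩ := pow_dvd_pow 2 h
          rw [hN, he, Nat.add_mul_mod_self_left]
        rw [h1]
      by_cases hjk : k j ≤ k i
      · rw [if_pos hjk]
        have h1 := count_le (k j) (k i) (r j) (hr j) hjk c
        have h2 := hshift hjk
        simp only [hτ] at h2 ⊢
        split_ifs at h2 ⊢ <;> linarith
      · have h3 : ¬ q j ≤ q i := fun h => hjk (hqk i j h)
        rw [if_neg hjk, if_neg h3, if_neg h3, add_zero, add_zero]
        have hcm : c = c / N * N + c % N := (Nat.div_add_mod' c N).symm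
        have h4 := count_gt (k j) (k i) (r j) (by omega) (c / N) (r i) (hr i)
          (hord i j (by omega))
        rw [← hN, ← hu', ← hcm] at h4
        exact h4

theorem step_integral (A e : ℝ) (h1 : 1 ≤ e) (h2 : e ≤ 2) (hA : 0 ≤ A) :
    ∫ y in (1 : ℝ)..2, (if e < y then A / 2 else A) = A * (e / 2) := by
  have hanti : Antitone fun y : ℝ => if e < y then A / 2 else A := by
    intro y y' hy
    dsimp only
    split_ifs with h3 h4 h4
    · exact le_rfl
    · linarith
    · exact absurd (h4.trans_le hy) h3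
    · exact le_rfl
  have hi : ∀ a b, IntervalIntegrable (fun y : ℝ => if e < y then A / 2 else A)
      MeasureTheory.volume a b := fun a b => hanti.intervalIntegrable
  rw [← intervalIntegral.integral_add_adjacent_intervals (hi 1 e) (hi e 2)]
  have h3 : ∫ y in (1 : ℝ)..e, (if e < y then A / 2 else A) = ∫ y in (1 : ℝ)..e, A := by
    refine intervalIntegral.integral_congr_ae (Filter.Eventually.of_forall fun y hy => ?_)
    rw [Set.uIoc_of_le h1] at hy
    rw [if_neg (not_lt.2 hy.2)]
  have h4 : ∫ y in e..(2 : ℝ), (if e < y then A / 2 else A) = ∫ y in e..(2 : ℝ), A / 2 := by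
    refine intervalIntegral.integral_congr_ae (Filter.Eventually.of_forall fun y hy => ?_)
    rw [Set.uIoc_of_le h2] at hy
    rw [if_pos hy.1]
  rw [h3, h4, intervalIntegral.integral_const, intervalIntegral.integral_const, smul_eq_mul,
    smul_eq_mul]
  ring

theorem exists_scale {n : ℕ} (A e : Fin n → ℝ) (hA : ∀ i, 0 ≤ A i) (he1 : ∀ i, 1 ≤ e i)
    (he2 : ∀ i, e i ≤ 2) (U : ℝ) (h : ∑ i, A i * (e i / 2) < U * Real.log 2) :
    ∃ y : ℝ, 1 < y ∧ y < 2 ∧ (∑ i, if e i < y then A i / 2 else A i) ≤ U / y := by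
  by_contra hcon
  push Not at hcon
  have hanti : ∀ i, Antitone fun y : ℝ => if e i < y then A i / 2 else A i := by
    intro i y y' hy
    have := hA i
    dsimp only
    split_ifs with h3 h4 h4
    · exact le_rfl
    · linarith
    · exact absurd (h4.trans_le hy) h3
    · exact le_rfl
  have hint : ∫ y in (1 : ℝ)..2, (∑ i, if e i < y then A i / 2 else A i) =
      ∑ i, A i * (e i / 2) := by
    rw [intervalIntegral.integral_finset_sum fun i _ => (hanti i).intervalIntegrable]
    exact Finset.sum_congr rfl fun i _ => step_integral _ _ (he1 i) (he2 i) (hA i)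
  have hMi : IntervalIntegrable (fun y : ℝ => ∑ i, if e i < y then A i / 2 else A i)
      MeasureTheory.volume 1 2 := by
    refine Antitone.intervalIntegrable ?_
    intro y y' hy
    exact Finset.sum_le_sum fun i _ => hanti i hy
  have hinv : IntervalIntegrable (fun y : ℝ => y⁻¹) MeasureTheory.volume 1 2 := by
    refine intervalIntegral.intervalIntegrable_inv (fun y hy => ?_) continuousOn_id
    rw [Set.uIcc_of_le (by norm_num)] at hy
    have : 0 < y := lt_of_lt_of_le one_pos hy.1
    exact this.ne'
  have h1 := intervalIntegral.integral_mono_on_of_le_Ioo (by norm_num : (1 : ℝ) ≤ 2)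
    (hinv.const_mul U) hMi (fun y hy => (hcon y hy.1 hy.2).le)
  rw [intervalIntegral.integral_const_mul, integral_inv_of_pos one_pos (by norm_num), hint,
    div_one] at h1
  linarith

/-! ### The main inequality -/

/-- An auxiliary function (an antiderivative) used in the main inequality. -/
noncomputable def H (α z y : ℝ) : ℝ := Real.log ((y - α) / (1 - α)) - z / (z - α) * Real.log y

theorem w_eq {α z g : ℝ} (hzα : α < z) (hg : α < g) (hg0 : 0 < g) :
    1 / (g - α) - z / (z - α) / g = α * (z - g) / ((z - α) * g * (g - α)) := by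
  have h1 : g - α ≠ 0 := by linarith
  have h2 : z - α ≠ 0 := by linarith
  field_simp
  ring

theorem H_step {α z y y' : ℝ} (hα0 : 0 ≤ α) (hα : α < 1) (hy' : 1 ≤ y') (hyy : y' ≤ y)
    (hyz : y ≤ z) :
    (y - y') * (1 / (y - α) - z / (z - α) / y) ≤ H α z y - H α z y' := by
  have hzα : α < z := by linarith
  have hsub : ∀ x ∈ Set.Icc y' y, 1 ≤ x := fun x hx => hy'.trans hx.1
  have hder : ∀ x, 1 ≤ x → HasDerivAt (H α z) (1 / (x - α) - z / (z - α) / x) x := by
    intro x hx
    have hx0 : 0 < x := by linarith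
    have hxα : 0 < x - α := by linarith
    have h1α : 0 < 1 - α := by linarith
    have h1 : HasDerivAt (fun x : ℝ => (x - α) / (1 - α)) (1 / (1 - α)) x :=
      ((hasDerivAt_id x).sub_const α).div_const (1 - α)
    have h2 := h1.log (by positivity)
    have h3 := (Real.hasDerivAt_log hx0.ne').const_mul (z / (z - α))
    have h4 := h2.sub h3
    refine (h4.congr_deriv ?_)
    field_simp
  have h := Convex.mul_sub_le_image_sub_of_le_deriv (convex_Icc y' y)
    (f := H α z)
    (fun x hx => (hder x (hsub x hx)).continuousAt.continuousWithinAt)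
    (fun x hx => (hder x (hsub x (interior_subset hx))).differentiableAt.differentiableWithinAt)
    (C := 1 / (y - α) - z / (z - α) / y)
    (fun x hx => by
      have hx' := interior_subset hx
      have hx1 := hsub x hx'
      rw [(hder x hx1).deriv, w_eq hzα (by linarith) (by linarith),
        w_eq hzα (by linarith) (by linarith)]
      have hxy : x ≤ y := hx'.2
      have hp1 : 0 < (z - α) * x * (x - α) := by
        have : 0 < z - α := by linarith
        have : 0 < x := by linarith
        have : 0 < x - α := by linarith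
        positivity
      refine div_le_div₀ ?_ ?_ hp1 ?_
      · exact mul_nonneg hα0 (by linarith)
      · exact mul_le_mul_of_nonneg_left (by linarith) hα0
      · have h1 : 0 < z - α := by linarith
        have h2 : 0 < x := by linarith
        have h3 : 0 < x - α := by linarith
        have h4 : (z - α) * x ≤ (z - α) * y := mul_le_mul_of_nonneg_left hxy h1.le
        have h5 : 0 < y := by linarith
        exact mul_le_mul h4 (by linarith) h3.le (by positivity))
    y' (Set.left_mem_Icc.2 hyy) y (Set.right_mem_Icc.2 hyy) hyy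
  linarith

theorem H_mono {α z y y' : ℝ} (hα0 : 0 ≤ α) (hα : α < 1) (hy' : 1 ≤ y') (hyy : y' ≤ y)
    (hyz : y ≤ z) : H α z y' ≤ H α z y := by
  have h := H_step hα0 hα hy' hyy hyz
  rw [w_eq (by linarith) (by linarith) (by linarith)] at h
  have h1 : 0 ≤ α * (z - y) / ((z - α) * y * (y - α)) := by
    have h1 : 0 < z - α := by linarith
    have h2 : 0 < y := by linarith
    have h3 : 0 < y - α := by linarith
    have h4 : 0 ≤ z - y := by linarith
    positivity
  have h2 : 0 ≤ (y - y') * (α * (z - y) / ((z - α) * y * (y - α))) :=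
    mul_nonneg (by linarith) h1
  linarith

/-- One job before the largest one. -/
theorem term_bound {α z c y y' g : ℝ} (hα0 : 0 ≤ α) (hα : α < 1) (hy' : 1 ≤ y') (hyy : y' ≤ y)
    (hc : 1 ≤ c) (hcz : c ≤ z) (hyc : y ≤ c ∨ c = z) (hg : y ≤ g) :
    (y - y') / (g - α) ≤ z / (z - α) * ((y - y') / g) +
      (H α z (min y c) - H α z (min y' c)) := by
  have hzα : α < z := by linarith
  have hgα : α < g := by linarith
  have hg0 : 0 < g := by linarith
  have hw := w_eq hzα hgα hg0
  have hgoal : (y - y') * (1 / (g - α) - z / (z - α) / g) ≤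
      H α z (min y c) - H α z (min y' c) := by
    rw [hw]
    have hzp : 0 < z - α := by linarith
    have hgp : 0 < g - α := by linarith
    rcases le_or_gt y c with h | h
    · rw [min_eq_left h, min_eq_left (hyy.trans h)]
      have hyz : y ≤ z := h.trans hcz
      refine le_trans ?_ (H_step hα0 hα hy' hyy hyz)
      refine mul_le_mul_of_nonneg_left ?_ (by linarith)
      rw [w_eq hzα (by linarith) (by linarith)]
      have hyp : 0 < y := by linarith
      have hyαp : 0 < y - α := by linarith
      rcases le_total g z with h1 | h1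
      · refine div_le_div₀ (mul_nonneg hα0 (by linarith))
          (mul_le_mul_of_nonneg_left (by linarith) hα0) (by positivity) ?_
        have h4 : (z - α) * y ≤ (z - α) * g := mul_le_mul_of_nonneg_left hg hzp.le
        exact mul_le_mul h4 (by linarith) hyαp.le (by positivity)
      · have h2 : α * (z - g) / ((z - α) * g * (g - α)) ≤ 0 :=
          div_nonpos_of_nonpos_of_nonneg (mul_nonpos_of_nonneg_of_nonpos hα0 (by linarith))
            (by positivity)
        have h3 : 0 ≤ α * (z - y) / ((z - α) * y * (y - α)) := by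
          have : 0 ≤ z - y := by linarith
          positivity
        linarith
    · have hcz' : c = z := by
        rcases hyc with h1 | h1
        · exact absurd h (not_lt.2 h1)
        · exact h1
      rw [min_eq_right h.le]
      have h1 : H α z (min y' c) ≤ H α z c :=
        H_mono hα0 hα (le_min hy' hc) (min_le_right _ _) hcz
      have h2 : α * (z - g) / ((z - α) * g * (g - α)) ≤ 0 :=
        div_nonpos_of_nonpos_of_nonneg (mul_nonpos_of_nonneg_of_nonpos hα0 (by linarith))
          (by positivity)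
      have h3 : (y - y') * (α * (z - g) / ((z - α) * g * (g - α))) ≤ 0 :=
        mul_nonpos_of_nonneg_of_nonpos (by linarith) h2
      linarith
  have h5 : (y - y') / (g - α) = (y - y') * (1 / (g - α)) := by ring
  have h6 : z / (z - α) * ((y - y') / g) = (y - y') * (z / (z - α) / g) := by ring
  rw [h5, h6]
  rw [mul_sub] at hgoal
  linarith

theorem main_ineq {n : ℕ} (p f Q : Fin n → ℝ) (α z c P : ℝ) (hα0 : 0 < α) (hα : α < 1)
    (hc : 1 ≤ c) (hcz : c ≤ z) (hP : 0 < P) (hp : ∀ i, 0 < p i) (hQ0 : ∀ i, 0 ≤ Q i)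
    (hs : ∀ i, ∑ k ∈ univ.filter (· ≤ i), p k + Q i ≤ α * f i)
    (hρ : ∑ i, p i / f i ≤ α)
    (hA : ∀ i, Q i = P → (∑ k ∈ univ.filter (· ≤ i), p k) / P + 1 ≤ c ∨ c = z)
    (hB : ∀ i, Q i ≠ P → z * Q i ≤ α * f i) :
    ∑ i, p i / (f i - Q i) ≤ α * (z / (z - α) + H α z c) := by
  classical
  have hzα : α < z := by linarith
  have hfpos : ∀ i, 0 < f i := by
    intro i
    have h1 := hs i
    have h2 : 0 < ∑ k ∈ univ.filter (· ≤ i), p k :=
      Finset.sum_pos (fun k _ => hp k) ⟨i, by simp⟩
    have h3 : 0 < α * f i := by linarith [hQ0 i]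
    exact (mul_pos_iff_of_pos_left hα0).1 h3
  have hfQ : ∀ i, Q i < f i := by
    intro i
    have h1 := hs i
    have h2 : 0 < ∑ k ∈ univ.filter (· ≤ i), p k :=
      Finset.sum_pos (fun k _ => hp k) ⟨i, by simp⟩
    have h3 := hfpos i
    nlinarith
  -- cumulated durations
  set Y : ℕ → ℝ := fun m => (∑ k ∈ univ.filter (fun k : Fin n => (k : ℕ) < m), p k) / P + 1
    with hY
  have hY0 : Y 0 = 1 := by simp [hY]
  have hY1 : ∀ m, 1 ≤ Y m := by
    intro m
    simp only [hY]
    have : 0 ≤ (∑ k ∈ univ.filter (fun k : Fin n => (k : ℕ) < m), p k) / P :=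
      div_nonneg (Finset.sum_nonneg fun k _ => (hp k).le) hP.le
    linarith
  have hYle : ∀ i : Fin n, Y (i + 1) = (∑ k ∈ univ.filter (· ≤ i), p k) / P + 1 := by
    intro i
    simp only [hY]
    congr 3
    ext k
    simp only [Finset.mem_filter, Finset.mem_univ, true_and, Fin.le_def]
    omega
  have hYstep : ∀ i : Fin n, Y (i + 1) - Y i = p i / P := by
    intro i
    simp only [hY]
    have h1 : univ.filter (fun k : Fin n => (k : ℕ) < i + 1) =
        insert i (univ.filter (fun k : Fin n => (k : ℕ) < i)) := by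
      ext k
      simp only [Finset.mem_filter, Finset.mem_univ, true_and, Finset.mem_insert]
      constructor
      · intro h
        rcases Nat.lt_or_ge (k : ℕ) i with h2 | h2
        · exact Or.inr h2
        · exact Or.inl (Fin.ext (by omega))
      · rintro (h | h)
        · rw [h]; omega
        · omega
    rw [h1, Finset.sum_insert (by simp)]
    ring
  have hYmono : ∀ i : Fin n, Y i ≤ Y (i + 1) := by
    intro i
    have := hYstep i
    have h2 : 0 ≤ p i / P := div_nonneg (hp i).le hP.le
    linarith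
  -- each term
  have hterm : ∀ i : Fin n, p i / (f i - Q i) ≤ z / (z - α) * (p i / f i) +
      α * (H α z (min (Y (i + 1)) c) - H α z (min (Y i) c)) := by
    intro i
    by_cases hi : Q i = P
    · have hg : Y (i + 1) ≤ α * f i / P := by
        rw [hYle i, le_div_iff₀ hP, add_mul, div_mul_cancel₀ _ hP.ne', one_mul]
        have := hs i
        rw [hi] at this
        exact this
      have hcc := hA i hi
      rw [← hYle i] at hcc
      have h := term_bound hα0.le hα (hY1 i) (hYmono i) hc hcz hcc hg
      rw [hYstep i] at h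
      have hfi := hfpos i
      have hfq := hfQ i
      rw [hi] at hfq ⊢
      have h1 : p i / P / (α * f i / P - α) = p i / (f i - P) / α := by
        have : f i - P ≠ 0 := by linarith
        have h2 : α * f i / P - α = α * (f i - P) / P := by
          field_simp
        rw [h2]
        field_simp
      have h2 : p i / P / (α * f i / P) = p i / f i / α := by
        field_simp
      rw [h1, h2] at h
      have h3 := mul_le_mul_of_nonneg_left h hα0.le
      have h4 : α * (p i / (f i - P) / α) = p i / (f i - P) := by field_simp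
      have h5 : α * (z / (z - α) * (p i / f i / α) +
          (H α z (min (Y (i + 1)) c) - H α z (min (Y i) c))) =
          z / (z - α) * (p i / f i) +
          α * (H α z (min (Y (i + 1)) c) - H α z (min (Y i) c)) := by
        field_simp
      rw [h4, h5] at h3
      exact h3
    · have h1 := hB i hi
      have hfi := hfpos i
      have hfq := hfQ i
      have hpi := hp i
      have h2 : p i / (f i - Q i) ≤ z / (z - α) * (p i / f i) := by
        have h3 : 0 < f i - Q i := by linarith
        have h4 : 0 < z - α := by linarith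
        rw [div_mul_div_comm, div_le_div_iff₀ h3 (by positivity)]
        have h5 : (z - α) * f i ≤ z * (f i - Q i) := by linarith
        calc p i * ((z - α) * f i) ≤ p i * (z * (f i - Q i)) :=
              mul_le_mul_of_nonneg_left h5 hpi.le
          _ = z * p i * (f i - Q i) := by ring
      have h3 : H α z (min (Y i) c) ≤ H α z (min (Y (i + 1)) c) :=
        H_mono hα0.le hα (le_min (hY1 _) hc) (min_le_min (hYmono i) le_rfl)
          ((min_le_right _ _).trans hcz)
      have h4 : 0 ≤ α * (H α z (min (Y (i + 1)) c) - H α z (min (Y i) c)) :=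
        mul_nonneg hα0.le (by linarith)
      linarith
  refine (Finset.sum_le_sum fun i _ => hterm i).trans ?_
  rw [Finset.sum_add_distrib, ← Finset.mul_sum, ← Finset.mul_sum]
  have htel : ∑ i : Fin n, (H α z (min (Y (i + 1)) c) - H α z (min (Y i) c)) =
      H α z (min (Y n) c) - H α z (min (Y 0) c) := by
    rw [Fin.sum_univ_eq_sum_range (fun m => H α z (min (Y (m + 1)) c) - H α z (min (Y m) c)) n]
    exact Finset.sum_range_sub (fun m => H α z (min (Y m) c)) n
  rw [htel, hY0, min_eq_left hc]
  have hH1 : H α z 1 = 0 := by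
    unfold H
    rw [div_self (by linarith), Real.log_one]
    ring
  rw [hH1]
  have h1 : H α z (min (Y n) c) ≤ H α z c :=
    H_mono hα0.le hα (le_min (hY1 _) hc) (min_le_right _ _) hcz
  have h2 : z / (z - α) * ∑ i, p i / f i ≤ z / (z - α) * α :=
    mul_le_mul_of_nonneg_left hρ (div_nonneg (by linarith) (by linarith))
  have h3 : α * (H α z (min (Y n) c) - 0) ≤ α * H α z c :=
    mul_le_mul_of_nonneg_left (by linarith) hα0.le
  linarith

/-! ### Numerical bounds -/

theorem num_A : 0.476 * ((5 / 2 : ℝ) / (5 / 2 - 0.476) + H 0.476 (5 / 2) (5 / 2)) <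
    Real.log 2 := by
  have hl1 := Real.log_two_gt_d9
  have hl2 := Real.log_two_lt_d9
  have h1 : Real.log ((5 / 2 - 0.476) / (1 - 0.476)) ≤ 2 * Real.log 2 + (506 / 524 - 1) := by
    have h2 : ((5 / 2 : ℝ) - 0.476) / (1 - 0.476) = 2 ^ 2 * (506 / 524) := by norm_num
    rw [h2, Real.log_mul (by norm_num) (by norm_num), Real.log_pow]
    have h3 := Real.log_le_sub_one_of_pos (show (0 : ℝ) < 506 / 524 by norm_num)
    push_cast
    linarith
  have h2 : (0.9161 : ℝ) ≤ Real.log (5 / 2) := by
    have h3 : Real.log (5 / 2 : ℝ) = Real.log 2 + Real.log (5 / 4) := by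
      rw [← Real.log_mul (by norm_num) (by norm_num)]
      norm_num
    have h4 : 3 * Real.log (5 / 4 : ℝ) = Real.log 2 - Real.log (128 / 125) := by
      rw [← Real.log_div (by norm_num) (by norm_num)]
      have : (3 : ℝ) * Real.log (5 / 4) = Real.log ((5 / 4) ^ 3) := by
        rw [Real.log_pow]
        norm_num
      rw [this]
      norm_num
    have h5 := Real.log_le_sub_one_of_pos (show (0 : ℝ) < 128 / 125 by norm_num)
    linarith
  unfold H
  have h3 : ((5 / 2 : ℝ) / (5 / 2 - 0.476)) = 2500 / 2024 := by norm_num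
  rw [h3]
  nlinarith

theorem num_B : 0.476 * ((2 : ℝ) / (2 - 0.476) + H 0.476 2 (3 / 2)) < Real.log 2 := by
  have hl1 := Real.log_two_gt_d9
  have hl2 := Real.log_two_lt_d9
  have h1 : Real.log ((3 / 2 - 0.476) / (1 - 0.476)) ≤ Real.log 2 + (512 / 524 - 1) := by
    have h2 : ((3 / 2 : ℝ) - 0.476) / (1 - 0.476) = 2 * (512 / 524) := by norm_num
    rw [h2, Real.log_mul (by norm_num) (by norm_num)]
    have h3 := Real.log_le_sub_one_of_pos (show (0 : ℝ) < 512 / 524 by norm_num)
    linarith
  have h2 : (0.405 : ℝ) ≤ Real.log (3 / 2) := by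
    have h4 : 5 * Real.log (3 / 2 : ℝ) = 3 * Real.log 2 - Real.log (256 / 243) := by
      have h6 : (5 : ℝ) * Real.log (3 / 2) = Real.log ((3 / 2) ^ 5) := by
        rw [Real.log_pow]
        norm_num
      have h7 : (3 : ℝ) * Real.log 2 = Real.log (2 ^ 3) := by
        rw [Real.log_pow]
        norm_num
      rw [h6, h7, ← Real.log_div (by norm_num) (by norm_num)]
      norm_num
    have h5 := Real.log_le_sub_one_of_pos (show (0 : ℝ) < 256 / 243 by norm_num)
    linarith
  unfold H
  have h3 : ((2 : ℝ) / (2 - 0.476)) = 2000 / 1524 := by norm_num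
  rw [h3]
  nlinarith


/-! ### The theorem -/

theorem feasible_of_L_le {n : ℕ} (V : DAPS n) (hL : L V ≤ 0.476) : Feasible V := by
  classical
  have hn : 0 < n := V.n_pos
  set α : ℝ := 0.476 with hα
  have hα0 : 0 < α := by rw [hα]; norm_num
  have hα1 : α < 1 := by rw [hα]; norm_num
  set i0 : Fin n := ⟨0, hn⟩ with hi0
  have hi0le : ∀ i : Fin n, i0 ≤ i := fun i => Fin.mk_le_of_le_val (Nat.zero_le _)
  have hρ : density V ≤ α := (le_max_left _ _).trans hL
  have hμ' : locMeasure V ≤ α := (le_max_right _ _).trans hL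
  have hfpos : ∀ i, (0 : ℝ) < V.f i := fun i => by exact_mod_cast V.f_pos i
  have hppos : ∀ i, (0 : ℝ) < V.p i := fun i => by exact_mod_cast V.p_pos i
  -- the local inequalities
  have hμ : ∀ i j, i < j → ∑ k ∈ univ.filter (· ≤ i), (V.p k : ℝ) + V.p j ≤ α * V.f i := by
    intro i j hij
    have h1 : ((∑ k ∈ Finset.univ.filter (· ≤ i), (V.f i / V.f k) * V.p k : ℕ) + V.p j : ℝ) /
        (V.f i : ℝ) ≤ locMeasure V := by
      unfold locMeasure
      exact le_ciSup (f := fun q : {q : Fin n × Fin n // q.1 < q.2} =>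
        ((∑ k ∈ Finset.univ.filter (· ≤ q.1.1), (V.f q.1.1 / V.f k) * V.p k : ℕ) +
          V.p q.1.2 : ℝ) / (V.f q.1.1 : ℝ)) (Set.finite_range _).bddAbove ⟨(i, j), hij⟩
    have h3 := h1.trans hμ'
    rw [div_le_iff₀ (hfpos i)] at h3
    have h4 : ∑ k ∈ univ.filter (· ≤ i), (V.p k : ℝ) ≤
        ((∑ k ∈ Finset.univ.filter (· ≤ i), (V.f i / V.f k) * V.p k : ℕ) : ℝ) := by
      push_cast
      refine Finset.sum_le_sum fun k hk => ?_
      rw [Finset.mem_filter] at hk
      have h5 : 1 ≤ V.f i / V.f k := Nat.div_pos (V.mono hk.2) (V.f_pos k)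
      have h6 : (1 : ℝ) ≤ ((V.f i / V.f k : ℕ) : ℝ) := by exact_mod_cast h5
      have h7 := hppos k
      nlinarith
    exact (add_le_add h4 le_rfl).trans h3
  -- the largest later duration
  set QN : Fin n → ℕ := fun i => (univ.filter (i < ·)).sup V.p with hQN
  set Q : Fin n → ℝ := fun i => (QN i : ℝ) with hQ
  have hQ0 : ∀ i, 0 ≤ Q i := fun i => by simp only [hQ]; positivity
  have hQle : ∀ i j, i < j → (V.p j : ℝ) ≤ Q i := by
    intro i j hij
    simp only [hQ, hQN]
    exact_mod_cast Finset.le_sup (f := V.p) (by simp [hij])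
  have hQanti : ∀ i j, i ≤ j → Q j ≤ Q i := by
    intro i j hij
    simp only [hQ, hQN]
    have : (univ.filter (j < ·)).sup V.p ≤ (univ.filter (i < ·)).sup V.p := by
      refine Finset.sup_mono ?_
      intro k hk
      rw [Finset.mem_filter] at hk ⊢
      exact ⟨hk.1, lt_of_le_of_lt hij hk.2⟩
    exact_mod_cast this
  have hQex : ∀ i, (Q i = 0 ∧ ∀ j, ¬ i < j) ∨ ∃ j, i < j ∧ (V.p j : ℝ) = Q i := by
    intro i
    rcases (univ.filter (i < ·)).eq_empty_or_nonempty with h | h
    · refine Or.inl ⟨?_, fun j hj => ?_⟩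
      · simp only [hQ, hQN, h, Finset.sup_empty]
        simp
      · have : j ∈ univ.filter (i < ·) := by simp [hj]
        rw [h] at this
        exact absurd this (Finset.notMem_empty _)
    · obtain ⟨j, hj, hj'⟩ := Finset.exists_mem_eq_sup _ h V.p
      rw [Finset.mem_filter] at hj
      refine Or.inr ⟨j, hj.2, ?_⟩
      simp only [hQ, hQN, hj']
  have hs : ∀ i, ∑ k ∈ univ.filter (· ≤ i), (V.p k : ℝ) + Q i ≤ α * V.f i := by
    intro i
    rcases hQex i with ⟨h1, h2⟩ | ⟨j, hij, hj⟩
    · rw [h1, add_zero]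
      rcases Nat.eq_zero_or_pos (i : ℕ) with h3 | h3
      · have h4 : univ.filter (· ≤ i) = {i} := by
          ext k
          simp only [Finset.mem_filter, Finset.mem_univ, true_and, Finset.mem_singleton]
          constructor
          · intro h
            exact le_antisymm h (by rw [Fin.le_def]; omega)
          · intro h
            exact h.le
        rw [h4, Finset.sum_singleton]
        have h5 : (V.p i : ℝ) / V.f i ≤ density V := by
          unfold density
          exact Finset.single_le_sum (f := fun i => (V.p i : ℝ) / (V.f i : ℝ))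
            (fun i _ => by positivity) (Finset.mem_univ i)
        have h6 := h5.trans hρ
        rw [div_le_iff₀ (hfpos i)] at h6
        exact h6
      · have hlt : (i : ℕ) - 1 < n := by have := i.isLt; omega
        set i' : Fin n := ⟨(i : ℕ) - 1, hlt⟩ with hi'
        have hii : i' < i := by
          rw [Fin.lt_def, hi']
          simp only
          omega
        have h4 := hμ i' i hii
        have h5 : univ.filter (· ≤ i) = insert i (univ.filter (· ≤ i')) := by
          ext k
          simp only [Finset.mem_filter, Finset.mem_univ, true_and, Finset.mem_insert, Fin.le_def,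
            Fin.ext_iff, hi']
          omega
        rw [h5, Finset.sum_insert]
        · have h6 : (V.f i' : ℝ) ≤ V.f i := by exact_mod_cast V.mono hii.le
          have h7 : α * V.f i' ≤ α * V.f i := mul_le_mul_of_nonneg_left h6 hα0.le
          linarith
        · simp only [Finset.mem_filter, Finset.mem_univ, true_and, not_le]
          exact hii
    · rw [← hj]
      exact hμ i j hij
  have hρ' : ∑ i, (V.p i : ℝ) / V.f i ≤ α := hρ
  have hmain : ∑ i, (V.p i : ℝ) / (V.f i - Q i) < Real.log 2 := by
    rcases (hQ0 i0).eq_or_lt with hP | hP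
    · have h1 : ∀ i, Q i = 0 := fun i =>
        le_antisymm ((hQanti i0 i (hi0le i)).trans hP.symm.le) (hQ0 i)
      have h2 : ∑ i, (V.p i : ℝ) / (V.f i - Q i) = ∑ i, (V.p i : ℝ) / V.f i :=
        Finset.sum_congr rfl fun i _ => by rw [h1 i, sub_zero]
      rw [h2]
      have := Real.log_two_gt_d9
      have h3 : α < 0.6931471803 := by rw [hα]; norm_num
      linarith
    · set P : ℝ := Q i0 with hPdef
      set S : ℝ := ∑ i ∈ univ.filter (fun i => Q i = P), (V.p i : ℝ) with hS
      have hS0 : 0 ≤ S := Finset.sum_nonneg fun i _ => (hppos i).le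
      have hAS : ∀ i, Q i = P → ∑ k ∈ univ.filter (· ≤ i), (V.p k : ℝ) ≤ S := by
        intro i hi
        refine Finset.sum_le_sum_of_subset_of_nonneg ?_ fun k _ _ => (hppos k).le
        intro k hk
        rw [Finset.mem_filter] at hk ⊢
        exact ⟨hk.1, le_antisymm (hQanti i0 k (hi0le k)) (hi ▸ hQanti k i hk.2)⟩
      -- the last job of duration `P`
      have hbne : (univ.filter (fun j => i0 < j ∧ (V.p j : ℝ) = P)).Nonempty := by
        rcases hQex i0 with ⟨h1, -⟩ | ⟨j, h1, h2⟩
        · exact absurd h1 hP.ne'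
        · exact ⟨j, by simp [h1, h2, hPdef]⟩
      obtain ⟨b, hb, hbmax⟩ := Finset.exists_max_image _ (fun j : Fin n => j) hbne
      rw [Finset.mem_filter] at hb
      have hbQ : Q b ≠ P := by
        intro h
        rcases hQex b with ⟨h1, -⟩ | ⟨j, h1, h2⟩
        · rw [h1] at h
          exact hP.ne h
        · have h3 := hbmax j (by
            simp only [Finset.mem_filter, Finset.mem_univ, true_and]
            exact ⟨hb.2.1.trans h1, h2.trans h⟩)
          exact absurd h3 (not_le.2 h1)
      have hBS : ∀ i, Q i ≠ P → S + P ≤ ∑ k ∈ univ.filter (· ≤ i), (V.p k : ℝ) := by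
        intro i hi
        have hQlt : Q i < P := lt_of_le_of_ne (hQanti i0 i (hi0le i)) hi
        have h1 : b ∉ univ.filter (fun i => Q i = P) := by simp [hbQ]
        have h2 : S + P = ∑ k ∈ insert b (univ.filter (fun i => Q i = P)), (V.p k : ℝ) := by
          rw [Finset.sum_insert h1, hb.2.2]
          ring
        rw [h2]
        refine Finset.sum_le_sum_of_subset_of_nonneg ?_ fun k _ _ => (hppos k).le
        intro k hk
        rw [Finset.mem_filter]
        refine ⟨Finset.mem_univ _, ?_⟩
        rcases Finset.mem_insert.1 hk with rfl | hk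
        · by_contra hcon
          have := hQle i k (not_le.1 hcon)
          rw [hb.2.2] at this
          exact absurd this (not_le.2 hQlt)
        · rw [Finset.mem_filter] at hk
          by_contra hcon
          have := hQanti i k (not_le.1 hcon).le
          rw [hk.2] at this
          exact absurd this (not_le.2 hQlt)
      have hBz : ∀ z : ℝ, z ≤ S / P + 2 → ∀ i, Q i ≠ P → z * Q i ≤ α * V.f i := by
        intro z hz i hi
        have h1 := hs i
        have h2 := hBS i hi
        have h3 : Q i ≤ P := hQanti i0 i (hi0le i)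
        have h4 : z * Q i ≤ (S / P + 2) * Q i := mul_le_mul_of_nonneg_right hz (hQ0 i)
        have h5 : S / P * Q i ≤ S / P * P := mul_le_mul_of_nonneg_left h3 (by positivity)
        rw [div_mul_cancel₀ _ hP.ne'] at h5
        have h6 := hQ0 i
        nlinarith
      rcases le_or_gt (1 / 2 : ℝ) (S / P) with hcase | hcase
      · have h := main_ineq (fun i => (V.p i : ℝ)) (fun i => (V.f i : ℝ)) Q α (5 / 2) (5 / 2) P
          hα0 hα1 (by norm_num) le_rfl hP hppos hQ0 hs hρ' (fun _ _ => Or.inr rfl)
          (hBz _ (by linarith))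
        exact h.trans_lt num_A
      · have h := main_ineq (fun i => (V.p i : ℝ)) (fun i => (V.f i : ℝ)) Q α 2 (3 / 2) P
          hα0 hα1 (by norm_num) (by norm_num) hP hppos hQ0 hs hρ'
          (fun i hi => Or.inl (by
            have h1 := hAS i hi
            have h2 : (∑ k ∈ univ.filter (· ≤ i), (V.p k : ℝ)) / P ≤ S / P :=
              div_le_div_of_nonneg_right h1 hP.le
            linarith))
          (hBz _ (by have : 0 ≤ S / P := by positivity
                     linarith))
        exact h.trans_lt num_B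
  -- the scale
  have hfQ : ∀ i, 0 < V.f i - Q i := by
    intro i
    have h1 := hs i
    have h2 : 0 < ∑ k ∈ univ.filter (· ≤ i), (V.p k : ℝ) :=
      Finset.sum_pos (fun k _ => hppos k) ⟨i, by simp⟩
    have h3 := hfpos i
    nlinarith
  set u : Fin n → ℝ := fun i => V.f i - Q i with hu
  have humono : ∀ i j, i ≤ j → u i ≤ u j := by
    intro i j hij
    have h1 := hQanti i j hij
    have h2 : (V.f i : ℝ) ≤ V.f j := by exact_mod_cast V.mono hij
    simp only [hu]
    linarith
  set U : ℝ := u i0 with hU
  have hU0 : 0 < U := hfQ i0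
  have hx1 : ∀ i, 1 ≤ u i / U := by
    intro i
    rw [le_div_iff₀ hU0, one_mul]
    exact humono i0 i (hi0le i)
  choose K hK1 hK2 using fun i => exists_nat_pow_near (hx1 i) (by norm_num : (1 : ℝ) < 2)
  have hK1' : ∀ i, 2 ^ K i * U ≤ u i := fun i => (le_div_iff₀ hU0).1 (hK1 i)
  have hK2' : ∀ i, u i < 2 ^ (K i + 1) * U := fun i => (div_lt_iff₀ hU0).1 (hK2 i)
  have hup : ∀ i, 0 < u i := hfQ
  set A : Fin n → ℝ := fun i => (V.p i : ℝ) / 2 ^ K i with hA
  set e : Fin n → ℝ := fun i => 2 * (2 ^ K i * U / u i) with he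
  have he1 : ∀ i, 1 ≤ e i := by
    intro i
    have h1 := hK2' i
    have h2 := hup i
    rw [pow_succ] at h1
    simp only [he]
    rw [← mul_div_assoc, le_div_iff₀ h2]
    linarith
  have he2 : ∀ i, e i ≤ 2 := by
    intro i
    have h1 := hK1' i
    have h2 := hup i
    simp only [he]
    rw [← mul_div_assoc, div_le_iff₀ h2]
    linarith
  have hAe : ∑ i, A i * (e i / 2) < U * Real.log 2 := by
    have h1 : ∑ i, A i * (e i / 2) = U * ∑ i, (V.p i : ℝ) / (V.f i - Q i) := by
      rw [Finset.mul_sum]
      refine Finset.sum_congr rfl fun i _ => ?_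
      have h2 := hup i
      have h3 : (V.f i - Q i) = u i := rfl
      rw [h3]
      simp only [hA, he]
      field_simp
    rw [h1]
    exact mul_lt_mul_of_pos_left hmain hU0
  obtain ⟨y, hy1, hy2, hM⟩ := exists_scale A e (fun i => by positivity) he1 he2 U hAe
  have hy0 : 0 < y := by linarith
  set k : Fin n → ℕ := fun i => if e i < y then K i + 1 else K i with hk
  have hki : ∀ i, (V.p i : ℝ) / 2 ^ k i = if e i < y then A i / 2 else A i := by
    intro i
    simp only [hk, hA]
    split_ifs with h
    · rw [pow_succ]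
      field_simp
    · rfl
  have hkU : ∀ i, 2 ^ k i * (U / y) ≤ u i := by
    intro i
    have h1 := hK1' i
    have h2 := hup i
    simp only [hk]
    split_ifs with h
    · have h3 : 2 * (2 ^ K i * U / u i) ≤ y := h.le
      rw [← mul_div_assoc, div_le_iff₀ h2] at h3
      rw [← mul_div_assoc, div_le_iff₀ hy0, pow_succ]
      linarith
    · have h4 : (0 : ℝ) ≤ 2 ^ K i := by positivity
      have h5 : U / y ≤ U := by
        rw [div_le_iff₀ hy0]
        nlinarith
      exact (mul_le_mul_of_nonneg_left h5 h4).trans h1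
  have hkmono : ∀ i j, j ≤ i → k j ≤ k i := by
    intro i j hji
    have h1 := humono j i hji
    have hKK : K j ≤ K i := by
      have h2 : (2 : ℝ) ^ K j * U < 2 ^ (K i + 1) * U := by
        linarith [hK1' j, hK2' i]
      have h3 : (2 : ℝ) ^ K j < 2 ^ (K i + 1) := lt_of_mul_lt_mul_right h2 hU0.le
      have h4 : K j < K i + 1 := (pow_lt_pow_iff_right₀ (by norm_num : (1 : ℝ) < 2)).1 h3
      omega
    rcases hKK.eq_or_lt with h2 | h2
    · have h3 : e i ≤ e j := by
        simp only [he]
        rw [h2]
        have h4 : 2 ^ K i * U / u i ≤ 2 ^ K i * U / u j :=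
          div_le_div_of_nonneg_left (by positivity) (hup j) h1
        linarith
      simp only [hk]
      split_ifs with h4 h5 h5
      · omega
      · exact absurd (h3.trans_lt h4) h5
      · omega
      · omega
    · simp only [hk]
      split_ifs <;> omega
  have hsum : ∑ i, (V.p i : ℝ) / 2 ^ k i = ∑ i, if e i < y then A i / 2 else A i :=
    Finset.sum_congr rfl fun i _ => hki i
  obtain ⟨r, Φ, hr, hΦ, -, -, -, hord, hbl⟩ := packing V.p k (U / y)
    (fun l => (((univ.filter (fun j => l < k j)).sup V.p : ℕ) : ℝ)) V.p_pos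
    (fun i l hil => by exact_mod_cast Finset.le_sup (f := V.p) (by simp [hil]))
    (by rw [hsum]; exact hM) univ
  refine feasible_of_packing V k r (fun i => hr i (Finset.mem_univ i))
    (fun i j => hord i (Finset.mem_univ i) j (Finset.mem_univ j)) fun i m => ?_
  have h1 : bl V.p k r univ (k i) m ≤ 2 ^ k i * (U / y) +
      (((univ.filter (fun j => k i < k j)).sup V.p : ℕ) : ℝ) := by
    rcases hbl (k i) m with ⟨-, h⟩ | h
    · exact h
    · have h2 : Φ (m * 2 ^ k i) ≤ Φ ((m + 1) * 2 ^ k i) :=
        hΦ (Nat.mul_le_mul_right _ (Nat.le_succ _))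
      have h3 : (0 : ℝ) ≤ (((univ.filter (fun j => k i < k j)).sup V.p : ℕ) : ℝ) := by
        positivity
      linarith
  have h2 : (((univ.filter (fun j => k i < k j)).sup V.p : ℕ) : ℝ) ≤ Q i := by
    have : (univ.filter (fun j => k i < k j)).sup V.p ≤ QN i := by
      refine Finset.sup_le fun j hj => ?_
      rw [Finset.mem_filter] at hj
      have hij : i < j := by
        by_contra hcon
        exact absurd (hkmono i j (not_lt.1 hcon)) (by omega)
      exact Finset.le_sup (f := V.p) (by simp [hij])
    simp only [hQ]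
    exact_mod_cast this
  have h3 := hkU i
  simp only [hu] at h3
  linarith

/-! ### The bound for `α*` -/

theorem bddAbove : BddAbove thresholds := by
  refine ⟨2, fun α hα => ?_⟩
  by_contra hcon
  push Not at hcon
  let V : DAPS 1 := ⟨fun _ => 1, fun _ => 2, by norm_num, by simp, by simp, by
    intro i j _
    exact le_rfl⟩
  have hemp : IsEmpty {q : Fin 1 × Fin 1 // q.1 < q.2} := by
    refine ⟨fun q => ?_⟩
    have h1 := q.2
    have h2 : q.1.1 = q.1.2 := Subsingleton.elim _ _
    rw [h2] at h1
    exact lt_irrefl _ h1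
  have hL : L V ≤ α := by
    unfold L
    refine max_le ?_ ?_
    · unfold density
      simp only [V, Finset.univ_unique, Finset.sum_singleton]
      norm_num
      exact hcon.le
    · unfold locMeasure
      rw [Real.iSup_of_isEmpty]
      linarith
  obtain ⟨S, hS⟩ := hα 1 V hL
  have h1 := hS 0
  have hS0 : ∀ t, S t = 0 := fun t => Subsingleton.elim _ _
  unfold cost at h1
  rw [if_pos] at h1
  · have h3 : ((∑ t ∈ Ioc 0 1, V.p (S t) : ℕ) : ℕ∞) ≤
        ⨆ (a : ℕ) (b : ℕ) (_ : a < b ∧ S a = 0 ∧ S b = 0 ∧ ∀ t, a < t → t < b → S t ≠ 0),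
          ((∑ t ∈ Ioc a b, V.p (S t) : ℕ) : ℕ∞) :=
      le_iSup_of_le 0 (le_iSup_of_le 1 (le_iSup_of_le
        ⟨by norm_num, hS0 0, hS0 1, fun t h3 h4 => by omega⟩ le_rfl))
    have h2 := h3.trans h1
    simp only [V] at h2
    norm_num at h2
  · have : {t | S t = 0} = Set.univ := by
      ext t
      simp [hS0 t]
    rw [this]
    exact Set.infinite_univ


/-- Every instance with `L(V) ≤ 0.476` is feasible; in particular `α* ≥ 0.476`. -/
theorem result : (∀ (n : ℕ) (V : DAPS n), L V ≤ 0.476 → Feasible V) ∧ 0.476 ≤ alphaStar :=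
  ⟨fun n V hL => feasible_of_L_le V hL, le_csSup bddAbove fun n V hL => feasible_of_L_le V hL⟩

end Pool.Agent.Results.MP_020ed8_lc.LowerBound
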