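import Mathlib

/-!
# Pinwheel scheduling with durations: the threshold `α*` is at most `0.6038`
-/

namespace Pool.Agent.Results.MP_020ed8_lc.UpperBound

open Finset

/-- A DAPS instance with `n` jobs (`n ≥ 1`): frequencies `f` in increasing order and durations
`p`, all positive integers. -/
structure DAPS (n : ℕ) where
  f : Fin n → ℕ
  p : Fin n → ℕ
  n_pos : 0 < n
  f_pos : ∀ i, 0 < f i
  p_pos : ∀ i, 0 < p i
  mono : Monotone f

open Classical in
/-- `c_i(V,S)`: the supremum over consecutive elements `a < b` of `S⁻¹(i)` of the total duration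
of the jobs processed at steps `a+1, …, b`, and `∞` if `J_i` is processed only finitely often. -/
noncomputable def cost {n : ℕ} (V : DAPS n) (S : ℕ → Fin n) (i : Fin n) : ℕ∞ :=
  if {t | S t = i}.Infinite then
    ⨆ (a : ℕ) (b : ℕ) (_ : a < b ∧ S a = i ∧ S b = i ∧ ∀ t, a < t → t < b → S t ≠ i),
      ((∑ t ∈ Ioc a b, V.p (S t) : ℕ) : ℕ∞)
  else ⊤

/-- The instance is feasible: some schedule `S` has `c_i(V,S) ≤ f_i` for all `i`. -/
def Feasible {n : ℕ} (V : DAPS n) : Prop :=
  ∃ S : ℕ → Fin n, ∀ i, cost V S i ≤ (V.f i : ℕ∞)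

/-- The density. -/
noncomputable def density {n : ℕ} (V : DAPS n) : ℝ := ∑ i, (V.p i : ℝ) / (V.f i : ℝ)

/-- The localized measure: the maximum over `i < j` of
`(∑ k ≤ i, ⌊f_i/f_k⌋ p_k + p_j) / f_i`, and `0` if `n = 1`. -/
noncomputable def locMeasure {n : ℕ} (V : DAPS n) : ℝ :=
  ⨆ q : {q : Fin n × Fin n // q.1 < q.2},
    ((∑ k ∈ Finset.univ.filter (· ≤ q.1.1), (V.f q.1.1 / V.f k) * V.p k : ℕ) + V.p q.1.2 : ℝ) /
      (V.f q.1.1 : ℝ)

/-- `L(V) = max(ρ(V), μ(V))`. -/
noncomputable def L {n : ℕ} (V : DAPS n) : ℝ := max (density V) (locMeasure V)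

/-- The set of thresholds `α` such that every instance with `L(V) ≤ α` is feasible. -/
def thresholds : Set ℝ := {α | ∀ (n : ℕ) (V : DAPS n), L V ≤ α → Feasible V}

/-- `α*`. -/
noncomputable def alphaStar : ℝ := sSup thresholds

/-! ### The instance -/

/-- five jobs -/
def ex : DAPS 5 where
  f := ![9999, 17373, 34010, 45347, 100000000]
  p := ![1337, 3963, 4700, 4700, 4700]
  n_pos := by norm_num
  f_pos := by decide
  p_pos := by decide
  mono := by
    intro i j hij
    fin_cases i <;> fin_cases j <;> simp_all [Fin.le_def]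

theorem density_ex : density ex ≤ 0.6038 := by
  unfold density
  rw [Fin.sum_univ_five, show ex.f 0 = 9999 from rfl, show ex.f 1 = 17373 from rfl,
    show ex.f 2 = 34010 from rfl, show ex.f 3 = 45347 from rfl, show ex.f 4 = 100000000 from rfl,
    show ex.p 0 = 1337 from rfl, show ex.p 1 = 3963 from rfl, show ex.p 2 = 4700 from rfl,
    show ex.p 3 = 4700 from rfl, show ex.p 4 = 4700 from rfl]
  norm_num

theorem locMeasure_ex_aux : ∀ i j : Fin 5, i < j →
    10000 * (∑ k ∈ Finset.univ.filter (· ≤ i), (ex.f i / ex.f k) * ex.p k + ex.p j) ≤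
      6038 * ex.f i := by
  decide

theorem locMeasure_ex : locMeasure ex ≤ 0.6038 := by
  unfold locMeasure
  apply Real.iSup_le _ (by norm_num)
  rintro ⟨⟨i, j⟩, hij⟩
  have h := locMeasure_ex_aux i j hij
  have hf : (0 : ℝ) < ex.f i := by exact_mod_cast ex.f_pos i
  rw [div_le_iff₀ hf]
  have h' : (10000 : ℝ) * (((∑ k ∈ Finset.univ.filter (· ≤ i), (ex.f i / ex.f k) * ex.p k : ℕ) : ℝ)
      + (ex.p j : ℝ)) ≤ 6038 * (ex.f i : ℝ) := by exact_mod_cast h
  linarith

theorem L_ex : L ex ≤ 0.6038 := max_le density_ex locMeasure_ex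

/-! ### Infeasibility -/

section infeasible

variable {S : ℕ → Fin 5}

/-- consequences of feasibility -/
theorem gaps {i : Fin 5} (h : cost ex S i ≤ (ex.f i : ℕ∞)) :
    {t | S t = i}.Infinite ∧ ∀ a b, a < b → S a = i → S b = i →
      (∀ t, a < t → t < b → S t ≠ i) → ∑ t ∈ Ioc a b, ex.p (S t) ≤ ex.f i := by
  unfold cost at h
  split_ifs at h with hinf
  · refine ⟨hinf, fun a b hab ha hb hab' => ?_⟩
    have h1 : ((∑ t ∈ Ioc a b, ex.p (S t) : ℕ) : ℕ∞) ≤
        ⨆ (a : ℕ) (b : ℕ) (_ : a < b ∧ S a = i ∧ S b = i ∧ ∀ t, a < t → t < b → S t ≠ i),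
          ((∑ t ∈ Ioc a b, ex.p (S t) : ℕ) : ℕ∞) :=
      le_iSup_of_le a (le_iSup_of_le b (le_iSup_of_le ⟨hab, ha, hb, hab'⟩ le_rfl))
    exact_mod_cast h1.trans h
  · exact absurd h (by simp)

/-- total duration of the first `n` jobs processed -/
def W (S : ℕ → Fin 5) (n : ℕ) : ℕ := ∑ t ∈ range n, ex.p (S t)

theorem W_succ (n : ℕ) : W S (n + 1) = W S n + ex.p (S n) := by
  unfold W
  rw [sum_range_succ]

theorem W_mono {m n : ℕ} (h : m ≤ n) : W S m ≤ W S n := by
  unfold W
  exact sum_le_sum_of_subset (range_mono h)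

theorem sum_Ioc {a b : ℕ} (h : a < b) :
    ∑ t ∈ Ioc a b, ex.p (S t) + W S (a + 1) = W S (b + 1) := by
  unfold W
  have : range (b + 1) = range (a + 1) ∪ Ioc a b := by
    ext t
    simp only [mem_range, mem_union, mem_Ioc]
    omega
  rw [this, sum_union, add_comm]
  rw [disjoint_left]
  intro t ht ht'
  rw [mem_range] at ht
  rw [mem_Ioc] at ht'
  omega

/-- the consecutive occurrences of `i` around time `t` -/
theorem around (h : ∀ i, cost ex S i ≤ (ex.f i : ℕ∞)) (i : Fin 5) {T t : ℕ} (hT : S T = i)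
    (hTt : T < t) (hit : S t ≠ i) :
    ∃ a b, T ≤ a ∧ a < t ∧ t < b ∧ S a = i ∧ S b = i ∧ (∀ s, a < s → s < b → S s ≠ i) ∧
      W S (b + 1) ≤ ex.f i + W S (a + 1) := by
  obtain ⟨hinf, hgap⟩ := gaps (h i)
  -- the last occurrence before `t`
  have hne : ((range t).filter fun s => S s = i).Nonempty :=
    ⟨T, mem_filter.mpr ⟨mem_range.mpr hTt, hT⟩⟩
  obtain ⟨a, ha, hamax⟩ := exists_max_image _ id hne
  rw [mem_filter, mem_range] at ha
  have hTa : T ≤ a := hamax T (mem_filter.mpr ⟨mem_range.mpr hTt, hT⟩)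
  -- the next occurrence after `t`
  have hex : ∃ b, t < b ∧ S b = i := by
    obtain ⟨b, hb, hb'⟩ := hinf.exists_gt t
    exact ⟨b, hb', hb⟩
  classical
  let b := Nat.find hex
  have hb : t < b ∧ S b = i := Nat.find_spec hex
  have hbmin : ∀ s, t < s → S s = i → b ≤ s := fun s h1 h2 => Nat.find_min' hex ⟨h1, h2⟩
  have hbetween : ∀ s, a < s → s < b → S s ≠ i := by
    intro s h1 h2 h3
    rcases lt_trichotomy s t with h4 | h4 | h4
    · have := hamax s (mem_filter.mpr ⟨mem_range.mpr h4, h3⟩)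
      simp only [id] at this
      omega
    · rw [h4] at h3; exact hit h3
    · have := hbmin s h4 h3
      omega
  refine ⟨a, b, hTa, ha.1, hb.1, ha.2, hb.2, hbetween, ?_⟩
  have hab : a < b := by omega
  have h1 := hgap a b hab ha.2 hb.2 hbetween
  have h2 := sum_Ioc (S := S) hab
  omega

theorem ex_infeasible : ¬ Feasible ex := by
  rintro ⟨S, h⟩
  -- durations
  have d0 : ex.p 0 = 1337 := rfl
  have d1 : ex.p 1 = 3963 := rfl
  have dtop : ∀ i : Fin 5, i ≠ 0 → i ≠ 1 → ex.p i = 4700 := by decide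
  have dnz : ∀ i : Fin 5, i ≠ 0 → 3963 ≤ ex.p i := by decide
  have f0 : ex.f 0 = 9999 := rfl
  have f1 : ex.f 1 = 17373 := rfl
  have f2 : ex.f 2 = 34010 := rfl
  have f3 : ex.f 3 = 45347 := rfl
  -- occurrences
  have hocc : ∀ i (m : ℕ), ∃ t, m < t ∧ S t = i := by
    intro i m
    obtain ⟨t, ht, ht'⟩ := (gaps (h i)).1.exists_gt m
    exact ⟨t, ht', ht⟩
  obtain ⟨t3, -, ht3⟩ := hocc 3 0
  obtain ⟨t2, ht2', ht2⟩ := hocc 2 t3
  obtain ⟨t1, ht1', ht1⟩ := hocc 1 0
  obtain ⟨t0, ht0', ht0⟩ := hocc 0 0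
  -- everything below happens after time `T`
  obtain ⟨T, hT⟩ : ∃ T, T = max (max t0 t1) (max t2 t3) := ⟨_, rfl⟩
  -- Claim A: separation by `J_0`
  have claimA : ∀ x y, t0 < x → x < y → S x ≠ 0 → S y ≠ 0 → (S x ≠ 1 ∨ S y ≠ 1) →
      ∃ z, x < z ∧ z < y ∧ S z = 0 := by
    intro x y hx hxy hSx hSy h1
    by_contra hcon
    push Not at hcon
    obtain ⟨a, b, ha1, ha2, hb, hSa, hSb, hbet, hW⟩ := around h 0 ht0 hx hSx
    have hby : y < b := by
      rcases lt_trichotomy b y with h2 | h2 | h2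
      · exact absurd hSb (hcon b hb h2)
      · rw [h2] at hSb; exact absurd hSb hSy
      · exact h2
    have w1 := W_mono (S := S) (show a + 1 ≤ x by omega)
    have w2 := W_succ (S := S) x
    have w3 := W_mono (S := S) (show x + 1 ≤ y by omega)
    have w4 := W_succ (S := S) y
    have w5 := W_mono (S := S) (show y + 1 ≤ b by omega)
    have w6 := W_succ (S := S) b
    rw [hSb, d0] at w6
    rw [f0] at hW
    have p1 := dnz _ hSx
    have p2 := dnz _ hSy
    rcases h1 with h1 | h1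
    · have p3 := dtop _ hSx h1
      omega
    · have p3 := dtop _ hSy h1
      omega
  -- Claim B: separation of long jobs by `J_1`
  have claimB : ∀ x y, max t0 t1 < x → x < y → S x ≠ 0 → S x ≠ 1 → S y ≠ 0 → S y ≠ 1 →
      ∃ z, x < z ∧ z < y ∧ S z = 1 := by
    intro x y hx hxy hSx hSx1 hSy hSy1
    by_contra hcon
    push Not at hcon
    -- extend the argument of claim A to the left of `x`
    obtain ⟨a, b, ha1, ha2, hb, hSa, hSb, hbet, hW⟩ :=
      around h 1 ht1 (show t1 < x by omega) hSx1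
    have hby : y < b := by
      rcases lt_trichotomy b y with h2 | h2 | h2
      · exact absurd hSb (hcon b hb h2)
      · rw [h2] at hSb; exact absurd hSb hSy1
      · exact h2
    -- a `J_0` between `a` and `x`
    have hz1 : ∃ z, a < z ∧ z < x ∧ S z = 0 := by
      by_contra hno
      push Not at hno
      obtain ⟨a', b', ha1', ha2', hb', hSa', hSb', hbet', hW'⟩ :=
        around h 0 ht0 (show t0 < x by omega) hSx
      have ha'a : a' < a := by
        rcases lt_trichotomy a' a with h2 | h2 | h2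
        · exact h2
        · rw [h2, hSa] at hSa'; exact absurd hSa' (by decide)
        · exact absurd hSa' (hno a' h2 ha2')
      have w1 := W_mono (S := S) (show a' + 1 ≤ a by omega)
      have w2 := W_succ (S := S) a
      have w3 := W_mono (S := S) (show a + 1 ≤ x by omega)
      have w4 := W_succ (S := S) x
      have w5 := W_mono (S := S) (show x + 1 ≤ b' by omega)
      have w6 := W_succ (S := S) b'
      rw [hSb', d0] at w6
      rw [hSa, d1] at w2
      rw [dtop _ hSx hSx1] at w4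
      rw [f0] at hW'
      omega
    obtain ⟨z1, hz1a, hz1x, hSz1⟩ := hz1
    obtain ⟨z2, hz2x, hz2y, hSz2⟩ := claimA x y (by omega) hxy hSx hSy (Or.inl hSx1)
    obtain ⟨z3, hz3y, hz3b, hSz3⟩ := claimA y b (by omega) hby hSy
      (by rw [hSb]; decide) (Or.inl hSy1)
    have w1 := W_mono (S := S) (show a + 1 ≤ z1 by omega)
    have w2 := W_succ (S := S) z1
    have w3 := W_mono (S := S) (show z1 + 1 ≤ x by omega)
    have w4 := W_succ (S := S) x
    have w5 := W_mono (S := S) (show x + 1 ≤ z2 by omega)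
    have w6 := W_succ (S := S) z2
    have w7 := W_mono (S := S) (show z2 + 1 ≤ y by omega)
    have w8 := W_succ (S := S) y
    have w9 := W_mono (S := S) (show y + 1 ≤ z3 by omega)
    have w10 := W_succ (S := S) z3
    have w11 := W_mono (S := S) (show z3 + 1 ≤ b by omega)
    have w12 := W_succ (S := S) b
    rw [hSz1, d0] at w2
    rw [dtop _ hSx hSx1] at w4
    rw [hSz2, d0] at w6
    rw [dtop _ hSy hSy1] at w8
    rw [hSz3, d0] at w10
    rw [hSb, d1] at w12
    rw [f1] at hW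
    omega
  -- Claim C: total duration between long jobs
  have claimC : ∀ x y, max t0 t1 < x → x < y → S x ≠ 0 → S x ≠ 1 → S y ≠ 0 → S y ≠ 1 →
      W S (x + 1) + 11337 ≤ W S (y + 1) := by
    intro x y hx hxy hSx hSx1 hSy hSy1
    obtain ⟨z, hz1, hz2, hSz⟩ := claimB x y hx hxy hSx hSx1 hSy hSy1
    have hSz0 : S z ≠ 0 := by rw [hSz]; decide
    obtain ⟨z1, h1, h2, hSz1⟩ := claimA x z (by omega) hz1 hSx hSz0 (Or.inl hSx1)
    obtain ⟨z2, h3, h4, hSz2⟩ := claimA z y (by omega) hz2 hSz0 hSy (Or.inr hSy1)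
    have w1 := W_mono (S := S) (show x + 1 ≤ z1 by omega)
    have w2 := W_succ (S := S) z1
    have w3 := W_mono (S := S) (show z1 + 1 ≤ z by omega)
    have w4 := W_succ (S := S) z
    have w5 := W_mono (S := S) (show z + 1 ≤ z2 by omega)
    have w6 := W_succ (S := S) z2
    have w7 := W_mono (S := S) (show z2 + 1 ≤ y by omega)
    have w8 := W_succ (S := S) y
    rw [hSz1, d0] at w2
    rw [hSz, d1] at w4
    rw [hSz2, d0] at w6
    rw [dtop _ hSy hSy1] at w8
    omega
  -- an occurrence of `J_3` and then one of `J_2` after `T`, then one of `J_4`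
  obtain ⟨s3, hs3, hSs3⟩ := hocc 3 T
  obtain ⟨s2, hs2, hSs2⟩ := hocc 2 s3
  obtain ⟨r, hr, hSr⟩ := hocc 4 s2
  have hr2 : S r ≠ 2 := by rw [hSr]; decide
  have hr3 : S r ≠ 3 := by rw [hSr]; decide
  have hr0 : S r ≠ 0 := by rw [hSr]; decide
  have hr1 : S r ≠ 1 := by rw [hSr]; decide
  obtain ⟨a, a', ha1, ha2, ha3, hSa, hSa', habet, hWa⟩ := around h 2 hSs2 hr hr2
  obtain ⟨b, b', hb1, hb2, hb3, hSb, hSb', hbbet, hWb⟩ :=
    around h 3 hSs3 (show s3 < r by omega) hr3
  have n2 : (2 : Fin 5) ≠ 0 ∧ (2 : Fin 5) ≠ 1 ∧ (2 : Fin 5) ≠ 3 := by decide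
  have n3 : (3 : Fin 5) ≠ 0 ∧ (3 : Fin 5) ≠ 1 := by decide
  have e1 := claimC a r (by omega) ha2 (by rw [hSa]; exact n2.1) (by rw [hSa]; exact n2.2.1)
    hr0 hr1
  have e2 := claimC r a' (by omega) ha3 hr0 hr1 (by rw [hSa']; exact n2.1)
    (by rw [hSa']; exact n2.2.1)
  rw [f2] at hWa
  rw [f3] at hWb
  have hba : b < a := by
    rcases lt_trichotomy b a with h1 | h1 | h1
    · exact h1
    · rw [h1, hSa] at hSb; exact absurd hSb n2.2.2
    · exfalso
      have e3 := claimC a b (by omega) h1 (by rw [hSa]; exact n2.1) (by rw [hSa]; exact n2.2.1)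
        (by rw [hSb]; exact n3.1) (by rw [hSb]; exact n3.2)
      have e4 := claimC b r (by omega) hb2 (by rw [hSb]; exact n3.1) (by rw [hSb]; exact n3.2)
        hr0 hr1
      omega
  have hab' : a' < b' := by
    rcases lt_trichotomy a' b' with h1 | h1 | h1
    · exact h1
    · rw [← h1, hSa'] at hSb'; exact absurd hSb' n2.2.2
    · exfalso
      have e3 := claimC b' a' (by omega) h1 (by rw [hSb']; exact n3.1)
        (by rw [hSb']; exact n3.2) (by rw [hSa']; exact n2.1) (by rw [hSa']; exact n2.2.1)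
      have e4 := claimC r b' (by omega) hb3 hr0 hr1 (by rw [hSb']; exact n3.1)
        (by rw [hSb']; exact n3.2)
      omega
  have e5 := claimC b a (by omega) hba (by rw [hSb]; exact n3.1) (by rw [hSb]; exact n3.2)
    (by rw [hSa]; exact n2.1) (by rw [hSa]; exact n2.2.1)
  have e6 := claimC a' b' (by omega) hab' (by rw [hSa']; exact n2.1)
    (by rw [hSa']; exact n2.2.1) (by rw [hSb']; exact n3.1) (by rw [hSb']; exact n3.2)
  omega

end infeasible

theorem thresholds_le {α : ℝ} (hα : α ∈ thresholds) : α ≤ 0.6038 := by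
  by_contra hcon
  exact ex_infeasible (hα 5 ex (L_ex.trans (not_le.mp hcon).le))

theorem density_pos {n : ℕ} (V : DAPS n) : 0 < density V := by
  have : Nonempty (Fin n) := ⟨⟨0, V.n_pos⟩⟩
  unfold density
  apply Finset.sum_pos _ Finset.univ_nonempty
  intro i _
  have h1 : (0 : ℝ) < V.p i := by exact_mod_cast V.p_pos i
  have h2 : (0 : ℝ) < V.f i := by exact_mod_cast V.f_pos i
  positivity

theorem zero_mem : (0 : ℝ) ∈ thresholds := by
  intro n V h
  exact absurd (lt_of_lt_of_le (density_pos V) ((le_max_left _ _).trans h)) (lt_irrefl _)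

/-- The instance `ex` has `L(ex) ≤ 0.6038` and is infeasible; the supremum `α*` exists and is at
most `0.6038`; in particular `α* < 1`. -/
theorem result : (L ex ≤ 0.6038 ∧ ¬ Feasible ex) ∧ IsLUB thresholds alphaStar ∧
    alphaStar ≤ 0.6038 := by
  refine ⟨⟨L_ex, ex_infeasible⟩, Real.isLUB_sSup ⟨0, zero_mem⟩
    ⟨0.6038, fun α hα => thresholds_le hα⟩, ?_⟩
  exact Real.sSup_le (fun α hα => thresholds_le hα) (by norm_num)

end Pool.Agent.Results.MP_020ed8_lc.UpperBound
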